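import Mathlib

set_option autoImplicit false

/-!
# A degree bound by counting forms
-/

namespace Pool.Agent.R327.HX

open MvPolynomial

variable {k : Type*} [Field k]

theorem finrank_forms (N n : ℕ) :
    Module.finrank k (homogeneousSubmodule (Fin N) k n) = (N + n - 1).choose n := by
  have h1 : homogeneousSubmodule (Fin N) k n = restrictSupport k {d : Fin N →₀ ℕ | d.degree = n} :=
    homogeneousSubmodule_eq_finsupp_supported (R := k) (σ := Fin N) n
  rw [h1, Module.finrank_eq_nat_card_basis (basisRestrictSupport k {d : Fin N →₀ ℕ | d.degree = n})]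
  have e : {d : Fin N →₀ ℕ | d.degree = n} ≃ Sym (Fin N) n :=
    (Equiv.subtypeEquivRight (fun d => Iff.rfl)).trans
      (Sym.equivNatSum (Fin N) n).symm
  rw [Nat.card_congr e, Nat.card_eq_fintype_card, Sym.card_sym_eq_choose, Fintype.card_fin]

instance finite_forms (N n : ℕ) : Module.Finite k (homogeneousSubmodule (Fin N) k n) := by
  exact Module.Finite.iff_fg.mpr (homogeneousSubmodule_fg (Fin N) k n)

/-- lower bound for the number of forms -/
lemma choose_lower (M n : ℕ) : (n + 1) ^ M ≤ M.factorial * (M + 1 + n - 1).choose n := by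
  have h : (M + 1 + n - 1) = M + n := by omega
  rw [h, Nat.add_comm M n, Nat.choose_symm_add, ← Nat.ascFactorial_eq_factorial_mul_choose]
  exact Nat.pow_succ_le_ascFactorial (n + 1) M

/-- upper bound for the number of forms -/
lemma choose_upper (M n : ℕ) : M.factorial * (M + 1 + n - 1).choose n ≤ (n + M) ^ M := by
  have h : (M + 1 + n - 1) = M + n := by omega
  rw [h, Nat.add_comm M n, Nat.choose_symm_add, ← Nat.ascFactorial_eq_factorial_mul_choose]
  exact Nat.ascFactorial_le_pow_add n M

/-- counting forms `w ^ α * t ^ i` -/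
theorem count_aux {M : ℕ} {d : ℕ} (w : Fin (M + 1) → MvPolynomial (Fin (M + 1)) k)
    (hw : ∀ i, (w i).IsHomogeneous d) (t : MvPolynomial (Fin (M + 1)) k) (ht : t.IsHomogeneous d)
    (r : ℕ)
    (hlin : ∀ p : Fin r → MvPolynomial (Fin (M + 1)) k,
      ∑ i, aeval w (p i) * t ^ (i : ℕ) = 0 → p = 0) (n : ℕ) (hn : r ≤ n) :
    r * (n - r + 1) ^ M ≤ (d * n + M) ^ M := by
  classical
  let V : Fin r → Submodule k (MvPolynomial (Fin (M + 1)) k) := fun i =>
    homogeneousSubmodule (Fin (M + 1)) k (n - i)
  let Ψ : ((i : Fin r) → V i) →ₗ[k] homogeneousSubmodule (Fin (M + 1)) k (d * n) :=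
    { toFun := fun p => ⟨∑ i, aeval w (p i : MvPolynomial (Fin (M + 1)) k) * t ^ (i : ℕ), by
        refine Submodule.sum_mem _ fun i _ => ?_
        rw [mem_homogeneousSubmodule]
        have h1 : (aeval w (p i : MvPolynomial (Fin (M + 1)) k)).IsHomogeneous (d * (n - i)) := by
          have h2 : ((p i : MvPolynomial (Fin (M + 1)) k)).IsHomogeneous (n - i) := (p i).2
          exact h2.aeval (R := k) w hw
        have h3 : (t ^ (i : ℕ)).IsHomogeneous (d * i) := ht.pow i
        have h4 := h1.mul h3
        have h5 : d * (n - i) + d * i = d * n := by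
          rw [← Nat.mul_add]
          congr 1
          have := i.2
          omega
        rwa [h5] at h4⟩
      map_add' := fun p q => by
        ext1
        simp [add_mul, Finset.sum_add_distrib]
      map_smul' := fun c p => by
        ext1
        simp [Finset.smul_sum] }
  have hinj : Function.Injective Ψ := by
    rw [injective_iff_map_eq_zero]
    intro p hp
    have h1 := hlin (fun i => (p i : MvPolynomial (Fin (M + 1)) k)) (congrArg Subtype.val hp)
    funext i
    ext1
    exact congrFun h1 i
  have hfin : ∀ i, Module.Finite k (V i) := fun i => finite_forms _ _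
  have h1 := LinearMap.finrank_le_finrank_of_injective hinj
  rw [Module.finrank_pi_fintype, finrank_forms] at h1
  have h2 : ∀ i : Fin r, (n - r + 1) ^ M ≤ M.factorial * Module.finrank k (V i) := by
    intro i
    rw [finrank_forms]
    refine le_trans ?_ (choose_lower M (n - i))
    exact Nat.pow_le_pow_left (by have := i.2; omega) M
  calc r * (n - r + 1) ^ M = ∑ i : Fin r, (n - r + 1) ^ M := by simp
    _ ≤ ∑ i : Fin r, M.factorial * Module.finrank k (V i) := Finset.sum_le_sum fun i _ => h2 i
    _ = M.factorial * ∑ i : Fin r, Module.finrank k (V i) := by rw [Finset.mul_sum]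
    _ ≤ M.factorial * (M + 1 + d * n - 1).choose (d * n) := Nat.mul_le_mul_left _ h1
    _ ≤ (d * n + M) ^ M := choose_upper M (d * n)

/-- the limit of the counting bound -/
theorem le_pow_of_count {M d r : ℕ} (h : ∀ n, r ≤ n → r * (n - r + 1) ^ M ≤ (d * n + M) ^ M) :
    r ≤ d ^ M := by
  have h1 : Filter.Tendsto (fun n : ℕ => (r : ℝ) * ((n : ℝ) / (n + r)) ^ M) Filter.atTop
      (nhds (r * 1 ^ M)) := by
    refine Filter.Tendsto.const_mul _ (Filter.Tendsto.pow ?_ _)
    exact tendsto_natCast_div_add_atTop (r : ℝ)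
  have h2 : Filter.Tendsto (fun n : ℕ => ((d : ℝ) + (M : ℝ) / ((n : ℝ) + r)) ^ M) Filter.atTop
      (nhds ((d + 0) ^ M)) := by
    refine Filter.Tendsto.pow (Filter.Tendsto.const_add _ ?_) _
    refine Filter.Tendsto.div_atTop tendsto_const_nhds ?_
    exact Filter.tendsto_atTop_add_const_right _ _ tendsto_natCast_atTop_atTop
  have h3 : (r : ℝ) * 1 ^ M ≤ (d + 0) ^ M := by
    refine le_of_tendsto_of_tendsto h1 h2 ?_
    filter_upwards [Filter.eventually_gt_atTop 0] with n hn
    have h4 := h (n + r) (by omega)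
    have h5 : n + r - r + 1 = n + 1 := by omega
    rw [h5] at h4
    have h6 : (r : ℝ) * ((n : ℝ) + 1) ^ M ≤ (d * ((n : ℝ) + r) + M) ^ M := by exact_mod_cast h4
    have hn' : (0 : ℝ) < n := by exact_mod_cast hn
    have hpos : (0 : ℝ) < (n : ℝ) + r := by positivity
    rw [div_pow, show (d : ℝ) + M / ((n : ℝ) + r) = (d * ((n : ℝ) + r) + M) / (n + r) by
      field_simp, div_pow, ← mul_div_assoc, div_le_div_iff_of_pos_right (by positivity)]
    refine le_trans ?_ h6
    gcongr
    linarith
  simp only [one_pow, mul_one, add_zero] at h3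
  exact_mod_cast h3

end Pool.Agent.R327.HX
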