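import Mathlib
import Pool.Agent.Helper259.HtDef

set_option autoImplicit false

/-!
# Height expansion ratio of rational self-maps of projective space: definitions

`Qbar` is `AlgebraicClosure ℚ` and `absLogHeight x` is the absolute logarithmic Weil height of the
vector `x` (both from `Pool.Agent.Helper259.HtDef`): Mathlib's height of `x` over the number field
`K` generated by the entries of `x`, divided by `[K : ℚ]`.
-/

namespace Pool.Agent.R327.HX

open MvPolynomial Filter
open Pool.Agent.Helper259.AbsHt (Qbar absLogHeight)

/-- the points of `ℙ^N` over the algebraic closure of the rationals -/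
abbrev PP (N : ℕ) : Type := Projectivization Qbar (Fin (N + 1) → Qbar)

/-- the absolute logarithmic Weil height of a point of `ℙ^N` -/
noncomputable def ht {N : ℕ} (P : PP N) : ℝ := absLogHeight P.rep

/-- Zariski open subsets of `ℙ^N`: the points at which some member of a given set of homogeneous
polynomials does not vanish -/
def ZariskiOpen {N : ℕ} (U : Set (PP N)) : Prop :=
  ∃ S : Set (MvPolynomial (Fin (N + 1)) Qbar), (∀ G ∈ S, ∃ m, G.IsHomogeneous m) ∧
    U = {P | ∃ G ∈ S, eval P.rep G ≠ 0}

/-- a rational map `ℙ^N ⇢ ℙ^N` of degree `d`: `N + 1` homogeneous polynomials of degree `d`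
without a common factor -/
structure RatMap (N d : ℕ) where
  /-- the coordinate polynomials -/
  f : Fin (N + 1) → MvPolynomial (Fin (N + 1)) Qbar
  hom : ∀ i, (f i).IsHomogeneous d
  coprime : ∀ q : MvPolynomial (Fin (N + 1)) Qbar, (∀ i, q ∣ f i) → IsUnit q

variable {N d : ℕ}

/-- the vector of values of the coordinate polynomials -/
noncomputable def RatMap.vec (F : RatMap N d) (P : PP N) : Fin (N + 1) → Qbar :=
  fun i => eval P.rep (F.f i)

/-- the map is defined at `P` -/
def RatMap.DefinedAt (F : RatMap N d) (P : PP N) : Prop := F.vec P ≠ 0

open Classical in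
/-- the image of a point (with a junk value outside the domain of definition) -/
noncomputable def RatMap.img (F : RatMap N d) (P : PP N) : PP N :=
  if h : F.vec P ≠ 0 then Projectivization.mk Qbar (F.vec P) h else P

/-- the map is dominant: its image meets every nonempty Zariski open set -/
def RatMap.Dominant (F : RatMap N d) : Prop :=
  ∀ U : Set (PP N), ZariskiOpen U → U.Nonempty → ∃ P, F.DefinedAt P ∧ F.img P ∈ U

/-- the lower limit of `h (f P) / h P` for the points `P` of `U` at which `f` is defined, as
`h P` tends to infinity -/
noncomputable def RatMap.low (F : RatMap N d) (U : Set (PP N)) : EReal :=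
  liminf (fun P : PP N => ((ht (F.img P) / ht P : ℝ) : EReal))
    (comap (fun P : PP N => ht P) atTop ⊓ 𝓟 {P | P ∈ U ∧ F.DefinedAt P})

/-- the height expansion ratio of a rational map -/
noncomputable def RatMap.mu (F : RatMap N d) : EReal :=
  ⨆ U : {U : Set (PP N) // ZariskiOpen U ∧ U.Nonempty}, F.low U.1

/-- the infimum of the height expansion ratios of the dominant rational self-maps of degree `d`
of `ℙ^N` -/
noncomputable def muBar (N d : ℕ) : EReal :=
  ⨅ F : {F : RatMap N d // F.Dominant}, F.1.mu

end Pool.Agent.R327.HX
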