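import Mathlib
import Pool.Agent.R327.HX.Count

set_option autoImplicit false

/-!
# Relations of small degree between `N + 1` forms in `N` variables
-/

namespace Pool.Agent.R327.HX

open MvPolynomial

variable {k : Type*} [Field k]

theorem aeval_homogeneousComponent {σ τ : Type*} (g : σ → MvPolynomial τ k) {d : ℕ} (hd : 1 ≤ d)
    (hg : ∀ i, (g i).IsHomogeneous d) (F : MvPolynomial σ k) (m : ℕ) :
    aeval g (homogeneousComponent m F) = homogeneousComponent (d * m) (aeval g F) := by
  classical
  conv_rhs => rw [← sum_homogeneousComponent F]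
  rw [map_sum, map_sum]
  have h1 : ∀ i, homogeneousComponent (d * m) (aeval g (homogeneousComponent i F)) =
      if i = m then aeval g (homogeneousComponent m F) else 0 := by
    intro i
    have h2 : (aeval g (homogeneousComponent i F)).IsHomogeneous (d * i) :=
      (homogeneousComponent_isHomogeneous i F).aeval g hg
    rw [homogeneousComponent_of_mem h2]
    by_cases h : i = m
    · subst h; simp
    · rw [if_neg, if_neg h]
      intro h3
      exact h (Nat.eq_of_mul_eq_mul_left (by omega) h3).symm
  simp only [h1]
  rw [Finset.sum_ite_eq']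
  split_ifs with h
  · rfl
  · rw [homogeneousComponent_eq_zero, map_zero]
    simpa using h

section theta

variable {σ R : Type*} [CommRing R] [Algebra k R] (a : σ → R) (b : σ → k)

/-- substitution of linear polynomials -/
noncomputable def theta : MvPolynomial σ k →ₐ[k] Polynomial R :=
  aeval (fun i => Polynomial.C (a i) + Polynomial.C (algebraMap k R (b i)) * Polynomial.X)

lemma theta_monomial (α : σ →₀ ℕ) (c : k) :
    (theta a b (monomial α c)).natDegree ≤ α.degree ∧
      (theta a b (monomial α c)).coeff α.degree = algebraMap k R (eval b (monomial α c)) := by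
  classical
  induction α using Finsupp.induction_linear generalizing c with
  | zero =>
    have h : theta a b (monomial (0 : σ →₀ ℕ) c) = Polynomial.C (algebraMap k R c) := by
      rw [← MvPolynomial.C_apply]
      simp [theta]
    rw [h]
    simp
  | add α β hα hβ =>
    have h : (monomial (α + β) c : MvPolynomial σ k) = monomial α c * monomial β 1 := by
      rw [monomial_mul, mul_one]
    rw [h, map_mul, map_mul, map_mul, map_add]
    obtain ⟨h1, h2⟩ := hα c
    obtain ⟨h3, h4⟩ := hβ 1
    refine ⟨Polynomial.natDegree_mul_le_of_le h1 h3, ?_⟩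
    rw [Polynomial.coeff_mul_add_eq_of_natDegree_le h1 h3, h2, h4]
  | single i n =>
    have h : (monomial (Finsupp.single i n) c : MvPolynomial σ k) = C c * X i ^ n := by
      rw [C_mul_X_pow_eq_monomial]
    have h0 : (Polynomial.C (a i) + Polynomial.C (algebraMap k R (b i)) * Polynomial.X).natDegree
        ≤ 1 := by
      refine (Polynomial.natDegree_add_le _ _).trans (max_le (by simp) ?_)
      exact (Polynomial.natDegree_C_mul_le _ _).trans Polynomial.natDegree_X_le
    have h1 : theta a b (C c * X i ^ n) = Polynomial.C (algebraMap k R c) *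
        (Polynomial.C (a i) + Polynomial.C (algebraMap k R (b i)) * Polynomial.X) ^ n := by
      simp [theta]
    have h2 : ((Polynomial.C (a i) + Polynomial.C (algebraMap k R (b i)) * Polynomial.X) ^ n
        ).natDegree ≤ n := by
      have := Polynomial.natDegree_pow_le_of_le n h0
      simpa using this
    rw [h, h1]
    refine ⟨?_, ?_⟩
    · rw [Finsupp.degree_single]
      exact (Polynomial.natDegree_C_mul_le _ _).trans h2
    · rw [Finsupp.degree_single, Polynomial.coeff_C_mul]
      have h3 := Polynomial.coeff_pow_of_natDegree_le (m := n) h0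
      rw [mul_one] at h3
      rw [h3]
      simp

lemma theta_homog {m : ℕ} (F : MvPolynomial σ k) (hF : F.IsHomogeneous m) :
    (theta a b F).natDegree ≤ m ∧ (theta a b F).coeff m = algebraMap k R (eval b F) := by
  classical
  have hF' : ∀ α ∈ F.support, α.degree = m := fun α hα => by
    have := hF (mem_support_iff.mp hα)
    rwa [Finsupp.degree_eq_weight_one]
  constructor
  · conv_lhs => rw [F.as_sum, map_sum]
    refine Polynomial.natDegree_sum_le_of_forall_le _ _ fun α hα => ?_
    rw [← hF' α hα]
    exact (theta_monomial a b α _).1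
  · conv_lhs => rw [F.as_sum, map_sum, Polynomial.finsetSum_coeff]
    conv_rhs => rw [F.as_sum, map_sum, map_sum]
    refine Finset.sum_congr rfl fun α hα => ?_
    conv_lhs => rw [← hF' α hα]
    exact (theta_monomial a b α _).2

end theta

theorem span_of {A : Type*} [CommRing A] [IsDomain A] [Algebra k A] (s t : Set A)
    (ht : Algebra.IsAlgebraic (Algebra.adjoin k t) A)
    (hts : ∀ a ∈ t, IsAlgebraic (Algebra.adjoin k s) a) :
    Algebra.IsAlgebraic (Algebra.adjoin k s) A := by
  rw [← AlgebraicIndependent.matroid_spanning_iff] at ht ⊢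
  have h1 : t ⊆ (AlgebraicIndependent.matroid k A).closure s := by
    intro a ha
    rw [AlgebraicIndependent.matroid_closure_eq]
    exact hts a ha
  have h2 := Matroid.closure_subset_closure_of_subset_closure h1
  rw [Matroid.spanning_iff_closure_eq] at ht ⊢
  rw [ht] at h2
  exact Set.Subset.antisymm (Matroid.closure_subset_ground _ _) h2

theorem indep_of_span {N : ℕ} (w : Fin N → MvPolynomial (Fin N) k)
    (h : Algebra.IsAlgebraic (Algebra.adjoin k (Set.range w)) (MvPolynomial (Fin N) k)) :
    AlgebraicIndependent k w := by
  refine (Algebra.IsAlgebraic.isTranscendenceBasis_of_lift_le_trdeg_of_finite k w ?_).1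
  rw [MvPolynomial.trdeg_of_isDomain]
  simp

theorem alg_of_indep {N : ℕ} {ι : Type} [Finite ι] (hι : Nat.card ι = N)
    (w : ι → MvPolynomial (Fin N) k) (h : AlgebraicIndependent k w) :
    Algebra.IsAlgebraic (Algebra.adjoin k (Set.range w)) (MvPolynomial (Fin N) k) := by
  have h1 : IsTranscendenceBasis k w := by
    refine h.isTranscendenceBasis_of_lift_trdeg_le_of_finite ?_
    rw [MvPolynomial.trdeg_of_isDomain]
    subst hι
    simp [Nat.cast_card]
  exact h1.isAlgebraic

/-- independence of the powers of an integral element over a polynomial ring -/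
theorem powers_indep {N : ℕ} (w : Fin N → MvPolynomial (Fin N) k) (hw : AlgebraicIndependent k w)
    (t : MvPolynomial (Fin N) k) (P : Polynomial (MvPolynomial (Fin N) k)) (hP : P.Monic)
    (ht : P.eval₂ (aeval w).toRingHom t = 0) :
    ∃ Q : Polynomial (MvPolynomial (Fin N) k), Q.Monic ∧ Q.eval₂ (aeval w).toRingHom t = 0 ∧
      ∀ p : Polynomial (MvPolynomial (Fin N) k), p.degree < Q.degree →
        p.eval₂ (aeval w).toRingHom t = 0 → p = 0 := by
  let S := Algebra.adjoin k (Set.range w)
  let e : MvPolynomial (Fin N) k ≃ₐ[k] S := hw.aevalEquiv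
  have hcl : IsIntegrallyClosed S := IsIntegrallyClosed.of_equiv e.toRingEquiv
  have he : (algebraMap S (MvPolynomial (Fin N) k)).comp e.toRingEquiv.toRingHom =
      (aeval w).toRingHom := by
    apply RingHom.ext
    intro x
    exact hw.algebraMap_aevalEquiv x
  have hev : ∀ p : Polynomial (MvPolynomial (Fin N) k),
      p.eval₂ (aeval w).toRingHom t = Polynomial.aeval t (p.map e.toRingEquiv.toRingHom) := by
    intro p
    rw [← he, Polynomial.aeval_def, Polynomial.eval₂_map]
  have hint : IsIntegral S t := ⟨P.map e.toRingEquiv.toRingHom, hP.map _, by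
    have := hev P
    rw [ht] at this
    exact this.symm⟩
  set Q0 := minpoly S t with hQ0
  have hQ0m : Q0.Monic := minpoly.monic hint
  set Q : Polynomial (MvPolynomial (Fin N) k) := Q0.map e.symm.toRingEquiv.toRingHom with hQ
  have hQQ : Q.map e.toRingEquiv.toRingHom = Q0 := by
    rw [hQ, Polynomial.map_map]
    have : (e.toRingEquiv.toRingHom).comp e.symm.toRingEquiv.toRingHom = RingHom.id S := by
      apply RingHom.ext
      intro x
      simp
    rw [this, Polynomial.map_id]
  refine ⟨Q, hQ0m.map _, ?_, fun p hp hpt => ?_⟩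
  · rw [hev, hQQ]
    exact minpoly.aeval S t
  · by_contra hp0
    rw [hev] at hpt
    have hinj : Function.Injective e.toRingEquiv.toRingHom := e.injective
    have h0 : p.map e.toRingEquiv.toRingHom ≠ 0 := (Polynomial.map_ne_zero_iff hinj).mpr hp0
    have h1 := minpoly.IsIntegrallyClosed.degree_le_of_ne_zero h0 hpt
    rw [Polynomial.degree_map_eq_of_injective hinj] at h1
    rw [← hQ0, ← hQQ, Polynomial.degree_map_eq_of_injective hinj] at h1
    exact absurd hp (not_lt.mpr h1)

lemma coeff_theta_zero {σ : Type*} (c : σ → k) (F : MvPolynomial σ k) (m : ℕ) :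
    (theta (0 : σ → k) c F).coeff m = eval c (homogeneousComponent m F) := by
  classical
  induction F using MvPolynomial.induction_on' with
  | monomial α v =>
    have h1 : theta (0 : σ → k) c (monomial α v) =
        Polynomial.monomial α.degree (eval c (monomial α v)) := by
      simp only [theta, aeval_monomial, Pi.zero_apply, map_zero, zero_add, eval_monomial,
        Finsupp.prod, mul_pow, Finset.prod_mul_distrib, Finset.prod_pow_eq_pow_sum,
        ← Polynomial.C_mul_X_pow_eq_monomial, Finsupp.degree, map_mul, map_prod, map_pow]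
      simp only [Algebra.algebraMap_self, RingHom.id_apply, Polynomial.algebraMap_apply]
      ring_nf
      rfl
    rw [h1, Polynomial.coeff_monomial, homogeneousComponent_apply]
    by_cases h : α.degree = m
    · rw [if_pos h]
      congr 1
      by_cases hv : v = 0
      · subst hv; simp
      · rw [support_monomial, if_neg hv]
        simp [Finset.filter_singleton, h]
    · rw [if_neg h]
      by_cases hv : v = 0
      · subst hv; simp
      · rw [support_monomial, if_neg hv]
        simp [Finset.filter_singleton, h]
  | add p q hp hq => rw [map_add, Polynomial.coeff_add, hp, hq, map_add, map_add]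

/-- `M + 2` forms of degree `d` in `M + 1` variables of full transcendence degree satisfy a nonzero
homogeneous relation of degree at most `d ^ M`. -/
theorem exists_rel [Infinite k] {M d : ℕ} (hd : 1 ≤ d)
    (g : Fin (M + 2) → MvPolynomial (Fin (M + 1)) k)
    (hg : ∀ i, (g i).IsHomogeneous d) (j0 : Fin (M + 2))
    (hind : AlgebraicIndependent k (fun i => g (j0.succAbove i))) :
    ∃ r, r ≤ d ^ M ∧ ∃ Φ : MvPolynomial (Fin (M + 2)) k, Φ ≠ 0 ∧ Φ.IsHomogeneous r ∧
      aeval g Φ = 0 := by
  classical
  -- a first relation
  have hdep : ¬ AlgebraicIndependent k g := by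
    intro h
    have h1 := h.lift_cardinalMk_le_trdeg
    rw [MvPolynomial.trdeg_of_isDomain] at h1
    simp at h1
    norm_cast at h1
    omega
  obtain ⟨F0, hF0, hF0'⟩ : ∃ F0 : MvPolynomial (Fin (M + 2)) k, aeval g F0 = 0 ∧ F0 ≠ 0 := by
    rw [algebraicIndependent_iff] at hdep
    push Not at hdep
    exact hdep
  obtain ⟨m, hm⟩ : ∃ m, homogeneousComponent m F0 ≠ 0 := by
    by_contra h
    push Not at h
    apply hF0'
    rw [← sum_homogeneousComponent F0]
    exact Finset.sum_eq_zero fun i _ => h i
  set F := homogeneousComponent m F0 with hF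
  have hFh : F.IsHomogeneous m := homogeneousComponent_isHomogeneous m F0
  have hFg : aeval g F = 0 := by
    rw [hF, aeval_homogeneousComponent g hd hg, hF0, map_zero]
  -- a point where it does not vanish
  obtain ⟨c, hc⟩ : ∃ c : Fin (M + 2) → k, eval c (F * X 0) ≠ 0 := by
    by_contra h
    push Not at h
    exact mul_ne_zero hm (X_ne_zero (0 : Fin (M + 2))) (MvPolynomial.funext fun c => by
      rw [h c, map_zero])
  rw [map_mul, eval_X] at hc
  have hcF : eval c F ≠ 0 := left_ne_zero_of_mul hc
  have hc0 : c 0 ≠ 0 := right_ne_zero_of_mul hc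
  set t : MvPolynomial (Fin (M + 1)) k := C (c 0)⁻¹ * g 0 with ht
  set w : Fin (M + 1) → MvPolynomial (Fin (M + 1)) k := fun l => g l.succ - C (c l.succ) * t
    with hw
  have htd : t.IsHomogeneous d := by
    have := (isHomogeneous_C (Fin (M + 1)) (c 0)⁻¹).mul (hg 0)
    rwa [zero_add] at this
  have hwd : ∀ l, (w l).IsHomogeneous d := by
    intro l
    refine (hg _).sub ?_
    have := (isHomogeneous_C (Fin (M + 1)) (c l.succ)).mul htd
    rwa [zero_add] at this
  set a : Fin (M + 2) → MvPolynomial (Fin (M + 1)) k := Fin.cons 0 X with ha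
  -- evaluation of `theta`
  have hth : ∀ G : MvPolynomial (Fin (M + 2)) k,
      (theta a c G).eval₂ (aeval w).toRingHom t = aeval g G := by
    intro G
    have h1 : ((Polynomial.eval₂RingHom (aeval w).toRingHom t).comp (theta a c).toRingHom) =
        (aeval g).toRingHom := by
      apply MvPolynomial.ringHom_ext
      · intro x
        simp [theta]
      · intro i
        refine Fin.cases ?_ (fun l => ?_) i
        · simp only [theta, ha, RingHom.comp_apply, AlgHom.toRingHom_eq_coe, RingHom.coe_coe,
            aeval_X, Fin.cons_zero, map_zero, zero_add, Polynomial.coe_eval₂RingHom,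
            Polynomial.eval₂_mul, Polynomial.eval₂_C, Polynomial.eval₂_X, algebraMap_eq, algHom_C]
          rw [ht, ← mul_assoc, ← C_mul, mul_inv_cancel₀ hc0, C_1, one_mul]
        · simp only [theta, ha, RingHom.comp_apply, AlgHom.toRingHom_eq_coe, RingHom.coe_coe,
            aeval_X, Fin.cons_succ, Polynomial.coe_eval₂RingHom, Polynomial.eval₂_add,
            Polynomial.eval₂_mul, Polynomial.eval₂_C, Polynomial.eval₂_X, algebraMap_eq, algHom_C]
          rw [hw]
          simp
    exact congrArg (fun f : MvPolynomial (Fin (M + 2)) k →+* MvPolynomial (Fin (M + 1)) k => f G) h1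
  -- the monic relation
  obtain ⟨hth1, hth2⟩ := theta_homog a c F hFh
  set P : Polynomial (MvPolynomial (Fin (M + 1)) k) :=
    Polynomial.C (C (eval c F)⁻¹) * theta a c F with hP
  have hPm : P.Monic := by
    refine Polynomial.monic_of_natDegree_le_of_coeff_eq_one m ?_ ?_
    · exact (Polynomial.natDegree_C_mul_le _ _).trans hth1
    · rw [hP, Polynomial.coeff_C_mul, hth2, algebraMap_eq, ← C_mul, inv_mul_cancel₀ hcF, C_1]
  have hPt : P.eval₂ (aeval w).toRingHom t = 0 := by
    rw [hP, Polynomial.eval₂_mul, hth, hFg, mul_zero]
  -- `w` is algebraically independent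
  have halg : Algebra.IsAlgebraic (Algebra.adjoin k (Set.range w))
      (MvPolynomial (Fin (M + 1)) k) := by
    refine span_of _ _ (alg_of_indep (by simp) _ hind) ?_
    have hwalg : ∀ l, IsAlgebraic (Algebra.adjoin k (Set.range w)) (w l) := fun l =>
      isAlgebraic_algebraMap (⟨w l, Algebra.subset_adjoin ⟨l, rfl⟩⟩ :
        Algebra.adjoin k (Set.range w))
    have htalg : IsAlgebraic (Algebra.adjoin k (Set.range w)) t := by
      refine IsIntegral.isAlgebraic ?_
      let e : MvPolynomial (Fin (M + 1)) k →ₐ[k] Algebra.adjoin k (Set.range w) :=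
        (aeval (fun l => (⟨w l, Algebra.subset_adjoin ⟨l, rfl⟩⟩ :
          Algebra.adjoin k (Set.range w))))
      refine ⟨P.map e.toRingHom, hPm.map _, ?_⟩
      rw [Polynomial.eval₂_map]
      have : (algebraMap (Algebra.adjoin k (Set.range w)) (MvPolynomial (Fin (M + 1)) k)).comp
          e.toRingHom = (aeval w).toRingHom := by
        apply MvPolynomial.ringHom_ext
        · intro x
          simp [e]
        · intro i
          simp [e]
      rw [this, hPt]
    have hCalg : ∀ x : k, IsAlgebraic (Algebra.adjoin k (Set.range w))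
        (C x : MvPolynomial (Fin (M + 1)) k) := fun x =>
      isAlgebraic_algebraMap (algebraMap k (Algebra.adjoin k (Set.range w)) x)
    have hgalg : ∀ i, IsAlgebraic (Algebra.adjoin k (Set.range w)) (g i) := by
      intro i
      refine Fin.cases ?_ (fun l => ?_) i
      · have : g 0 = C (c 0) * t := by
          rw [ht, ← mul_assoc, ← C_mul, mul_inv_cancel₀ hc0, C_1, one_mul]
        rw [this]
        exact (hCalg _).mul htalg
      · have : g l.succ = w l + C (c l.succ) * t := by
          rw [hw]
          simp
        rw [this]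
        exact (hwalg l).add ((hCalg _).mul htalg)
    rintro _ ⟨i, rfl⟩
    exact hgalg _
  have hwind := indep_of_span w halg
  -- the minimal relation
  obtain ⟨Q, hQm, hQt, hQmin⟩ := powers_indep w hwind t P hPm hPt
  set r := Q.natDegree with hr
  have hrd : r ≤ d ^ M := by
    refine le_pow_of_count fun n hn => count_aux w hwd t htd r (fun p hp => ?_) n hn
    have h1 : (∑ i : Fin r, Polynomial.C (p i) * Polynomial.X ^ (i : ℕ)) = 0 := by
      refine hQmin _ ?_ ?_
      · rw [Polynomial.degree_eq_natDegree hQm.ne_zero, ← hr]
        exact Polynomial.degree_sum_fin_lt p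
      · rw [Polynomial.eval₂_finsetSum]
        simpa using hp
    funext i
    have h2 := congrArg (fun q : Polynomial (MvPolynomial (Fin (M + 1)) k) => q.coeff i) h1
    simp only [Polynomial.finsetSum_coeff, Polynomial.coeff_C_mul, Polynomial.coeff_X_pow,
      Polynomial.coeff_zero] at h2
    rw [Finset.sum_eq_single i] at h2
    · simpa using h2
    · intro b _ hb
      have : (i : ℕ) ≠ b := fun h => hb (Fin.ext h.symm)
      simp [this]
    · intro h
      exact absurd (Finset.mem_univ i) h
  -- going back
  set W : Fin (M + 1) → MvPolynomial (Fin (M + 2)) k := fun l =>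
    X l.succ - C (c l.succ) * (C (c 0)⁻¹ * X 0) with hW
  set Tt : MvPolynomial (Fin (M + 2)) k := C (c 0)⁻¹ * X 0 with hTt
  set Φ0 : MvPolynomial (Fin (M + 2)) k := Q.eval₂ (aeval W).toRingHom Tt with hΦ0
  have h1 : aeval g Φ0 = 0 := by
    rw [← hQt, hΦ0]
    have : (aeval g : MvPolynomial (Fin (M + 2)) k →ₐ[k] _).toRingHom
        (Q.eval₂ (aeval W).toRingHom Tt) = Q.eval₂ (aeval w).toRingHom t := by
      rw [Polynomial.hom_eval₂]
      congr 1
      · apply MvPolynomial.ringHom_ext
        · intro x
          simp
        · intro i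
          simp [hW, hw, ht, hTt]
      · simp [hTt, ht]
    exact this
  refine ⟨r, hrd, homogeneousComponent r Φ0, ?_, homogeneousComponent_isHomogeneous _ _, ?_⟩
  · intro h0
    have h2 := coeff_theta_zero c Φ0 r
    rw [h0, map_zero] at h2
    have h3 : theta (0 : Fin (M + 2) → k) c Φ0 =
        Q.map (eval (0 : Fin (M + 1) → k)) := by
      rw [hΦ0]
      have : (theta (0 : Fin (M + 2) → k) c).toRingHom (Q.eval₂ (aeval W).toRingHom Tt) =
          Q.eval₂ (Polynomial.C.comp (eval (0 : Fin (M + 1) → k))) Polynomial.X := by
        rw [Polynomial.hom_eval₂]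
        congr 1
        · apply MvPolynomial.ringHom_ext
          · intro x
            simp
          · intro i
            simp only [AlgHom.toRingHom_eq_coe, RingHom.coe_comp, RingHom.coe_coe,
              Function.comp_apply, aeval_X, hW, map_sub, map_mul, algHom_C, theta,
              Pi.zero_apply, map_zero, zero_add, Polynomial.algebraMap_apply, eval_X]
            simp only [Algebra.algebraMap_self, RingHom.id_apply, hTt, map_mul, algHom_C, aeval_X,
              Polynomial.algebraMap_apply]
            rw [← mul_assoc (Polynomial.C (c 0)⁻¹), ← Polynomial.C_mul, inv_mul_cancel₀ hc0,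
              Polynomial.C_1, one_mul, sub_self]
        · simp only [hTt, AlgHom.toRingHom_eq_coe, RingHom.coe_coe, map_mul, algHom_C, theta,
              Pi.zero_apply, map_zero, zero_add, Polynomial.algebraMap_apply, aeval_X,
              Algebra.algebraMap_self, RingHom.id_apply]
          rw [← mul_assoc, ← Polynomial.C_mul, inv_mul_cancel₀ hc0, Polynomial.C_1, one_mul]
      exact this
    rw [h3, Polynomial.coeff_map, hr, Polynomial.Monic.coeff_natDegree hQm, map_one] at h2
    exact one_ne_zero h2
  · rw [aeval_homogeneousComponent g hd hg, h1, map_zero]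

end Pool.Agent.R327.HX
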