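import Mathlib
import Pool.Agent.R327.HX.Rel

set_option autoImplicit false

/-!
# The image of a moving hyperplane
-/

namespace Pool.Agent.R327.HX

open MvPolynomial

variable {k : Type} [Field k]

/-- the coordinates on the moving hyperplane `x_0 + T x_1 + ... + T^(M+1) x_(M+1) = 0` -/
noncomputable def xx (k : Type) [Field k] (M : ℕ) :
    Fin (M + 2) → MvPolynomial (Fin (M + 1)) (Polynomial k) :=
  Fin.cons (-∑ j : Fin (M + 1), C (Polynomial.X ^ ((j : ℕ) + 1)) * X j) X

lemma xx_homog (M : ℕ) (i : Fin (M + 2)) : (xx k M i).IsHomogeneous 1 := by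
  refine Fin.cases ?_ (fun l => ?_) i
  · simp only [xx, Fin.cons_zero]
    refine (IsHomogeneous.sum _ _ _ fun j _ => ?_).neg
    have := (isHomogeneous_C (Fin (M + 1)) (Polynomial.X ^ ((j : ℕ) + 1) : Polynomial k)).mul
      (isHomogeneous_X (Polynomial k) j)
    rwa [zero_add] at this
  · simp only [xx, Fin.cons_succ]
    exact isHomogeneous_X _ _

/-- evaluation at a value of the parameter and of the free coordinates -/
lemma xx_eval (M : ℕ) (y : Fin (M + 2) → k) (τ : k)
    (hτ : ∑ i : Fin (M + 2), y i * τ ^ (i : ℕ) = 0) (P : MvPolynomial (Fin (M + 2)) k) :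
    eval₂Hom (Polynomial.evalRingHom τ) (fun j : Fin (M + 1) => y j.succ) (aeval (xx k M) P) =
      eval y P := by
  have h : (eval₂Hom (Polynomial.evalRingHom τ) (fun j : Fin (M + 1) => y j.succ)).comp
      (aeval (xx k M) : MvPolynomial (Fin (M + 2)) k →ₐ[k] _).toRingHom = eval y := by
    apply MvPolynomial.ringHom_ext
    · intro c
      simp [MvPolynomial.algebraMap_apply]
    · intro i
      refine Fin.cases ?_ (fun l => ?_) i
      · simp only [AlgHom.toRingHom_eq_coe, RingHom.coe_comp, RingHom.coe_coe,
          Function.comp_apply, aeval_X, xx, Fin.cons_zero, map_neg, map_sum, map_mul,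
          eval₂Hom_C, eval₂Hom_X', eval_X, Polynomial.coe_evalRingHom,
          Polynomial.eval_pow, Polynomial.eval_X, map_pow]
        rw [Fin.sum_univ_succ] at hτ
        simp only [Fin.val_zero, pow_zero, mul_one, Fin.val_succ] at hτ
        have h2 : (∑ x : Fin (M + 1), τ ^ ((x : ℕ) + 1) * y x.succ) =
            ∑ x : Fin (M + 1), y x.succ * τ ^ ((x : ℕ) + 1) :=
          Finset.sum_congr rfl fun _ _ => mul_comm _ _
        rw [h2]
        linear_combination -hτ
      · simp [xx]
  exact congrArg (fun f : MvPolynomial (Fin (M + 2)) k →+* k => f P) h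

lemma xx_injective [IsAlgClosed k] (M : ℕ) :
    Function.Injective (aeval (xx k M) : MvPolynomial (Fin (M + 2)) k →ₐ[k] _) := by
  rw [injective_iff_map_eq_zero]
  intro P hP
  have h1 : P * X 1 = 0 := by
    refine MvPolynomial.funext fun y => ?_
    rw [map_mul, eval_X, map_zero]
    by_cases hy : y 1 = 0
    · rw [hy, mul_zero]
    · set q : Polynomial k := ∑ i : Fin (M + 2), Polynomial.C (y i) * Polynomial.X ^ (i : ℕ)
        with hq
      have hcoeff : q.coeff 1 = y 1 := by
        rw [hq, Polynomial.finsetSum_coeff, Finset.sum_eq_single 1]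
        · simp
        · intro b _ hb
          rw [Polynomial.coeff_C_mul, Polynomial.coeff_X_pow, if_neg, mul_zero]
          intro h
          apply hb
          ext
          simp [← h]
        · intro h
          exact absurd (Finset.mem_univ _) h
      have hdeg : q.degree ≠ 0 := by
        intro h
        have h2 : q.natDegree = 0 := Polynomial.natDegree_eq_of_degree_eq_some h
        have h3 : q.coeff 1 = 0 := Polynomial.coeff_eq_zero_of_natDegree_lt (by omega)
        exact hy (hcoeff ▸ h3)
      obtain ⟨τ, hτ⟩ := IsAlgClosed.exists_root q hdeg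
      have h4 : ∑ i : Fin (M + 2), y i * τ ^ (i : ℕ) = 0 := by
        rw [Polynomial.IsRoot.def, hq, Polynomial.eval_finsetSum] at hτ
        simpa using hτ
      rw [← xx_eval M y τ h4 P, hP, map_zero, zero_mul]
  exact (mul_eq_zero.mp h1).resolve_right (X_ne_zero _)

/-- some `M + 1` of the restricted forms are independent over `k[T]` -/
theorem exists_indep [IsAlgClosed k] {M : ℕ} (f : Fin (M + 2) → MvPolynomial (Fin (M + 2)) k)
    (hf : AlgebraicIndependent k f) :
    ∃ j0 : Fin (M + 2), AlgebraicIndependent (Polynomial k)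
      (fun i => aeval (xx k M) (f (j0.succAbove i))) := by
  classical
  set g : Fin (M + 2) → MvPolynomial (Fin (M + 1)) (Polynomial k) :=
    fun i => aeval (xx k M) (f i) with hg
  have hgind : AlgebraicIndependent k g := hf.map' (xx_injective M)
  have htr : Algebra.trdeg k (MvPolynomial (Fin (M + 1)) (Polynomial k)) = (M + 2 : ℕ) := by
    have h1 := trdeg_add_eq k (Polynomial k)
      (A := MvPolynomial (Fin (M + 1)) (Polynomial k))
    rw [Polynomial.trdeg_of_isDomain, MvPolynomial.trdeg_of_isDomain] at h1
    rw [← h1]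
    simp
    norm_cast
    ring_nf
  have hgb : IsTranscendenceBasis k g := by
    refine hgind.isTranscendenceBasis_of_lift_trdeg_le_of_finite ?_
    rw [htr]
    simp
  have halg : Algebra.IsAlgebraic (Algebra.adjoin k (Set.range g))
      (MvPolynomial (Fin (M + 1)) (Polynomial k)) := hgb.isAlgebraic
  have halg2 : Algebra.IsAlgebraic (Algebra.adjoin (Polynomial k) (Set.range g))
      (MvPolynomial (Fin (M + 1)) (Polynomial k)) := by
    refine ⟨fun a => ?_⟩
    have h1 := halg.1 a
    have hle : Algebra.adjoin k (Set.range g) ≤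
        (Algebra.adjoin (Polynomial k) (Set.range g)).restrictScalars k :=
      Algebra.adjoin_le Algebra.subset_adjoin
    exact h1.tower_top_of_subalgebra_le hle
  obtain ⟨t, hts, htb⟩ := exists_isTranscendenceBasis_subset (R := Polynomial k) (Set.range g)
  have hcard : Nat.card t = M + 1 := by
    have h1 := htb.lift_cardinalMk_eq (IsTranscendenceBasis.mvPolynomial (Fin (M + 1))
      (Polynomial k))
    have h2 := congrArg Cardinal.toNat h1
    rw [Nat.card]
    simpa using h2
  -- the index set
  set I : Finset (Fin (M + 2)) := Finset.univ.filter fun i => g i ∈ t with hI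
  have hIt : (I : Set (Fin (M + 2))).image g = t := by
    ext a
    constructor
    · rintro ⟨i, hi, rfl⟩
      simpa [hI] using hi
    · intro ha
      obtain ⟨i, rfl⟩ := hts ha
      exact ⟨i, by simpa [hI] using ha, rfl⟩
  have hIcard : I.card = M + 1 := by
    rw [← hcard, ← hIt, Nat.card_image_of_injective hgind.injective]
    simp
  obtain ⟨j0, hj0⟩ : ∃ j0, j0 ∉ I := by
    by_contra h
    push Not at h
    have : I = Finset.univ := Finset.eq_univ_iff_forall.mpr h
    rw [this] at hIcard
    simp at hIcard
  have hIj : ∀ i, i ≠ j0 → i ∈ I := by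
    intro i hi
    have h1 : I ⊆ Finset.univ.erase j0 := by
      intro x hx
      rw [Finset.mem_erase]
      exact ⟨fun h => hj0 (h ▸ hx), Finset.mem_univ _⟩
    have h2 : I = Finset.univ.erase j0 := by
      refine Finset.eq_of_subset_of_card_le h1 ?_
      rw [Finset.card_erase_of_mem (Finset.mem_univ _), hIcard]
      simp
    rw [h2, Finset.mem_erase]
    exact ⟨hi, Finset.mem_univ _⟩
  refine ⟨j0, ?_⟩
  have h3 : ∀ i, g (j0.succAbove i) ∈ t := fun i => by
    have := hIj _ (Fin.succAbove_ne j0 i)
    simpa [hI] using this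
  exact htb.1.comp (fun i => (⟨g (j0.succAbove i), h3 i⟩ : t)) (by
    intro a b hab
    have h4 : g (j0.succAbove a) = g (j0.succAbove b) := congrArg Subtype.val hab
    exact Fin.succAbove_right_injective (hgind.injective h4))


/-- the equation of the image of the moving hyperplane -/
theorem exists_Phi [IsAlgClosed k] {M d : ℕ} (hd : 1 ≤ d)
    (f : Fin (M + 2) → MvPolynomial (Fin (M + 2)) k) (hfd : ∀ i, (f i).IsHomogeneous d)
    (hf : AlgebraicIndependent k f) :
    ∃ r, r ≤ d ^ M ∧ ∃ Φ : MvPolynomial (Fin (M + 2)) (Polynomial k), Φ ≠ 0 ∧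
      Φ.IsHomogeneous r ∧ ∀ x : Fin (M + 2) → k,
        (∑ i : Fin (M + 2), Polynomial.C (x i) * Polynomial.X ^ (i : ℕ)) ∣
          eval (fun i => Polynomial.C (eval x (f i))) Φ := by
  classical
  obtain ⟨j0, hj0⟩ := exists_indep f hf
  set K' := FractionRing (Polynomial k) with hK'
  set g : Fin (M + 2) → MvPolynomial (Fin (M + 1)) (Polynomial k) :=
    fun i => aeval (xx k M) (f i) with hg
  have hinjB : Function.Injective (algebraMap (Polynomial k) K') :=
    IsFractionRing.injective (Polynomial k) K'
  set ψ : MvPolynomial (Fin (M + 1)) (Polynomial k) →+* MvPolynomial (Fin (M + 1)) K' :=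
    MvPolynomial.map (algebraMap (Polynomial k) K') with hψ
  have halgK : Algebra.IsAlgebraic (Polynomial k) K' :=
    IsLocalization.isAlgebraic (R := Polynomial k) K' (nonZeroDivisors (Polynomial k))
  have hinfK : Infinite K' := Infinite.of_injective _ hinjB
  have hψinj : Function.Injective ψ := MvPolynomial.map_injective _ hinjB
  have hcomm : ∀ r : Polynomial k, ψ (algebraMap (Polynomial k)
      (MvPolynomial (Fin (M + 1)) (Polynomial k)) r) =
      algebraMap (Polynomial k) (MvPolynomial (Fin (M + 1)) K') r := by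
    intro r
    simp [hψ, MvPolynomial.algebraMap_eq, MvPolynomial.algebraMap_apply]
  let ψa : MvPolynomial (Fin (M + 1)) (Polynomial k) →ₐ[Polynomial k]
      MvPolynomial (Fin (M + 1)) K' := { ψ with commutes' := hcomm }
  have hgd : ∀ i, (g i).IsHomogeneous d := by
    intro i
    have := (hfd i).aeval (xx k M) (xx_homog M)
    rwa [one_mul] at this
  have hind2 : AlgebraicIndependent K' (fun i => ψ (g (j0.succAbove i))) := by
    have h1 := hj0.map' (f := ψa) hψinj
    exact h1.extendScalars K'
  obtain ⟨r, hr, Φ', hΦ0, hΦh, hΦg⟩ := exists_rel hd (fun i => ψ (g i))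
    (fun i => (hgd i).map _) j0 hind2
  -- clear denominators
  obtain ⟨b, hb⟩ := IsLocalization.exist_integer_multiples_of_finset
    (nonZeroDivisors (Polynomial k)) (Φ'.support.image fun α => coeff α Φ')
  have hb0 : (b : Polynomial k) ≠ 0 := nonZeroDivisors.ne_zero b.2
  have hb' : ∀ α, ∃ c : Polynomial k, algebraMap (Polynomial k) K' c =
      algebraMap (Polynomial k) K' b * coeff α Φ' := by
    intro α
    by_cases hα : α ∈ Φ'.support
    · obtain ⟨c, hc⟩ := hb _ (Finset.mem_image_of_mem _ hα)
      refine ⟨c, ?_⟩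
      rw [hc, Algebra.smul_def]
    · refine ⟨0, ?_⟩
      rw [notMem_support_iff.mp hα, mul_zero, map_zero]
  choose c hc using hb'
  set Φ : MvPolynomial (Fin (M + 2)) (Polynomial k) :=
    ∑ α ∈ Φ'.support, monomial α (c α) with hΦ
  have hmap : MvPolynomial.map (algebraMap (Polynomial k) K') Φ =
      C (algebraMap (Polynomial k) K' b) * Φ' := by
    rw [hΦ, map_sum]
    conv_rhs => rw [Φ'.as_sum, Finset.mul_sum]
    refine Finset.sum_congr rfl fun α _ => ?_
    rw [map_monomial, C_mul_monomial, hc]
  have hb0' : algebraMap (Polynomial k) K' b ≠ 0 := by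
    intro h
    exact hb0 (hinjB (by rw [h, map_zero]))
  refine ⟨r, hr, Φ, ?_, ?_, ?_⟩
  · intro h
    rw [h, map_zero] at hmap
    have := hmap.symm
    rw [mul_eq_zero] at this
    rcases this with h1 | h1
    · exact hb0' (C_eq_zero.mp h1)
    · exact hΦ0 h1
  · rw [hΦ]
    refine IsHomogeneous.sum _ _ _ fun α hα => ?_
    apply isHomogeneous_monomial
    have := hΦh (mem_support_iff.mp hα)
    rwa [Finsupp.degree_eq_weight_one]
  · have hgΦ : aeval g Φ = 0 := by
      apply hψinj
      have h1 : ψ (aeval g Φ) = aeval (fun i => ψ (g i))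
          (MvPolynomial.map (algebraMap (Polynomial k) K') Φ) := by
        rw [aeval_map_algebraMap]
        exact comp_aeval_apply (f := g) ψa Φ
      rw [h1, hmap, map_mul, hΦg, mul_zero, map_zero]
    intro x
    set Px : Polynomial k := ∑ i : Fin (M + 2), Polynomial.C (x i) * Polynomial.X ^ (i : ℕ)
      with hPx
    rw [← Ideal.mem_span_singleton, ← Ideal.Quotient.eq_zero_iff_mem]
    set q := Ideal.Quotient.mk (Ideal.span {Px}) with hq
    -- the evaluation of the restricted forms
    have h2 : eval (fun i : Fin (M + 1) => Polynomial.C (x i.succ)) (aeval g Φ) = 0 := by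
      rw [hgΦ, map_zero]
    have h3 : eval (fun i : Fin (M + 1) => Polynomial.C (x i.succ)) (aeval g Φ) =
        eval (fun i => eval (fun i : Fin (M + 1) => Polynomial.C (x i.succ)) (g i)) Φ := by
      have h31 := comp_aeval_apply (f := g)
        (aeval (fun i : Fin (M + 1) => Polynomial.C (x i.succ)) :
          MvPolynomial (Fin (M + 1)) (Polynomial k) →ₐ[Polynomial k] Polynomial k) Φ
      simpa only [MvPolynomial.aeval_eq_eval] using h31
    rw [h3] at h2
    have h4 : ∀ i, q (eval (fun i : Fin (M + 1) => Polynomial.C (x i.succ)) (g i)) =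
        q (Polynomial.C (eval x (f i))) := by
      intro i
      have h5 : ((q.comp (eval (fun i : Fin (M + 1) => Polynomial.C (x i.succ)))).comp
          (aeval (xx k M) : MvPolynomial (Fin (M + 2)) k →ₐ[k] _).toRingHom) =
          (q.comp Polynomial.C).comp (eval x) := by
        apply MvPolynomial.ringHom_ext
        · intro a
          simp [MvPolynomial.algebraMap_apply]
        · intro i
          refine Fin.cases ?_ (fun l => ?_) i
          · simp only [AlgHom.toRingHom_eq_coe, RingHom.coe_comp, RingHom.coe_coe,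
              Function.comp_apply, aeval_X, xx, Fin.cons_zero, eval_X]
            rw [hq, Ideal.Quotient.mk_eq_mk_iff_sub_mem, Ideal.mem_span_singleton]
            refine ⟨-1, ?_⟩
            rw [hPx, Fin.sum_univ_succ (f := fun i : Fin (M + 2) =>
              Polynomial.C (x i) * Polynomial.X ^ (i : ℕ))]
            simp only [map_neg, map_sum, map_mul, eval_C, eval_X, Fin.val_zero, pow_zero, mul_one,
              Fin.val_succ]
            have h6 : (∑ x_1 : Fin (M + 1), Polynomial.X ^ ((x_1 : ℕ) + 1) *
                Polynomial.C (x x_1.succ)) = ∑ x_1 : Fin (M + 1), Polynomial.C (x x_1.succ) *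
                Polynomial.X ^ ((x_1 : ℕ) + 1) :=
              Finset.sum_congr rfl fun _ _ => mul_comm _ _
            rw [h6]
            ring
          · simp [xx]
      exact congrArg (fun φ : MvPolynomial (Fin (M + 2)) k →+* _ => φ (f i)) h5
    have h7 := congrArg q h2
    rw [map_zero] at h7
    rw [← h7]
    have h8 : ∀ v : Fin (M + 2) → Polynomial k, q (eval v Φ) =
        eval₂ q (fun i => q (v i)) Φ := by
      intro v
      rw [← MvPolynomial.eval₂_id, MvPolynomial.hom_eval₂, RingHom.comp_id]
    rw [h8, h8]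
    simp only [h4]

end Pool.Agent.R327.HX
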