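import Mathlib
import Pool.Agent.R327.HX.Phi
import Pool.Agent.Helper259.AbsHt

set_option autoImplicit false

/-!
# The lower bound for the height of the image under a dominant rational map
-/

namespace Pool.Agent.R327.HX

open MvPolynomial
open Pool.Agent.Helper259.AbsHt Pool.Agent.Helper259.HtPoly

/-- coefficient of `T ^ n` -/
noncomputable def phi {M : ℕ} (Φ : MvPolynomial (Fin (M + 2)) (Polynomial Qbar)) (n : ℕ) :
    MvPolynomial (Fin (M + 2)) Qbar :=
  ∑ α ∈ Φ.support, monomial α ((coeff α Φ).coeff n)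

lemma phi_coeff {M : ℕ} (Φ : MvPolynomial (Fin (M + 2)) (Polynomial Qbar)) (n : ℕ)
    (β : Fin (M + 2) →₀ ℕ) : coeff β (phi Φ n) = (coeff β Φ).coeff n := by
  classical
  rw [phi, coeff_sum]
  simp only [coeff_monomial]
  rw [Finset.sum_ite_eq']
  split_ifs with h
  · rfl
  · rw [notMem_support_iff.mp h, Polynomial.coeff_zero]

lemma phi_homog {M r : ℕ} (Φ : MvPolynomial (Fin (M + 2)) (Polynomial Qbar))
    (h : Φ.IsHomogeneous r) (n : ℕ) : (phi Φ n).IsHomogeneous r := by
  intro β hβ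
  apply h
  intro h0
  apply hβ
  rw [phi_coeff, h0, Polynomial.coeff_zero]

lemma eval_phi {M : ℕ} (Φ : MvPolynomial (Fin (M + 2)) (Polynomial Qbar))
    (v : Fin (M + 2) → Qbar) (n : ℕ) :
    (eval (fun i => Polynomial.C (v i)) Φ).coeff n = eval v (phi Φ n) := by
  classical
  rw [phi, map_sum]
  conv_lhs => rw [Φ.as_sum, map_sum, Polynomial.finsetSum_coeff]
  refine Finset.sum_congr rfl fun α _ => ?_
  rw [eval_monomial, eval_monomial]
  have h1 : (α.prod fun i e => (Polynomial.C (v i)) ^ e) =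
      Polynomial.C (α.prod fun i e => v i ^ e) := by
    rw [Finsupp.prod, Finsupp.prod, map_prod]
    simp
  rw [h1, Polynomial.coeff_mul_C]

theorem height_lower {M d : ℕ} (hd : 1 ≤ d)
    (f : Fin (M + 2) → MvPolynomial (Fin (M + 2)) Qbar) (hfd : ∀ i, (f i).IsHomogeneous d)
    (hf : AlgebraicIndependent Qbar f) :
    ∃ (m : ℕ) (G : MvPolynomial (Fin (M + 2)) Qbar), G.IsHomogeneous m ∧ G ≠ 0 ∧
      ∃ C : ℝ, ∀ x : Fin (M + 2) → Qbar, eval x G ≠ 0 → x ≠ 0 →
        absLogHeight x ≤ C + (d : ℝ) ^ M * absLogHeight (fun i => eval x (f i)) := by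
  classical
  obtain ⟨r, hr, Φ, hΦ0, hΦh, hdvd⟩ := exists_Phi hd f hfd hf
  obtain ⟨α, hα⟩ : ∃ α, coeff α Φ ≠ 0 := by
    by_contra h
    push Not at h
    exact hΦ0 (MvPolynomial.ext _ _ fun α => by rw [h α, coeff_zero])
  obtain ⟨n0, hn0⟩ : ∃ n0, (coeff α Φ).coeff n0 ≠ 0 := by
    by_contra h
    push Not at h
    exact hα (Polynomial.ext fun n => by rw [h n, Polynomial.coeff_zero])
  have hphi0 : phi Φ n0 ≠ 0 := by
    intro h
    apply hn0
    rw [← phi_coeff, h, coeff_zero]
  set D : ℕ := Φ.support.sup fun α => (coeff α Φ).natDegree with hD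
  set n : ℕ := max D (M + 1) with hn
  obtain ⟨C1, hC1⟩ := absLogHeight_eval (ι' := Fin (n + 1)) r (fun j => phi Φ j)
    (fun j => phi_homog Φ hΦh j)
  refine ⟨d * r, aeval f (phi Φ n0), (phi_homog Φ hΦh n0).aeval f hfd, ?_, ?_⟩
  · intro h
    exact hphi0 ((injective_iff_map_eq_zero _).mp hf _ h)
  refine ⟨Real.log (2 ^ n * (n + 1)) + C1, fun x hx hx0 => ?_⟩
  set v : Fin (M + 2) → Qbar := fun i => eval x (f i) with hv
  have hevx : eval x (aeval f (phi Φ n0)) = eval v (phi Φ n0) := by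
    have h1 := comp_aeval_apply (f := f)
      (aeval x : MvPolynomial (Fin (M + 2)) Qbar →ₐ[Qbar] Qbar) (phi Φ n0)
    simpa only [MvPolynomial.aeval_eq_eval] using h1
  rw [hevx] at hx
  set Px : Polynomial Qbar := ∑ i : Fin (M + 2), Polynomial.C (x i) * Polynomial.X ^ (i : ℕ)
    with hPx
  set E : Polynomial Qbar := eval (fun i => Polynomial.C (v i)) Φ with hE
  have hE0 : E ≠ 0 := by
    intro h
    apply hx
    rw [← eval_phi, ← hE, h, Polynomial.coeff_zero]
  obtain ⟨Q, hQ⟩ := hdvd x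
  rw [← hPx] at hQ
  change E = Px * Q at hQ
  have hPx0 : Px ≠ 0 := by
    rintro h
    rw [h, zero_mul] at hQ
    exact hE0 hQ
  have hQ0 : Q ≠ 0 := by
    rintro h
    rw [h, mul_zero] at hQ
    exact hE0 hQ
  have hEdeg : E.natDegree ≤ n := by
    refine le_trans ?_ (le_max_left _ _)
    rw [Polynomial.natDegree_le_iff_coeff_eq_zero]
    intro N hN
    rw [hE, eval_phi]
    have h0 : phi Φ N = 0 := by
      refine MvPolynomial.ext _ _ fun β => ?_
      rw [phi_coeff, coeff_zero]
      by_cases hβ : β ∈ Φ.support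
      · refine Polynomial.coeff_eq_zero_of_natDegree_lt (lt_of_le_of_lt ?_ hN)
        exact Finset.le_sup (f := fun α => (coeff α Φ).natDegree) hβ
      · rw [notMem_support_iff.mp hβ, Polynomial.coeff_zero]
    rw [h0, map_zero]
  have hdeg : Px.natDegree + Q.natDegree ≤ n := by
    rw [← Polynomial.natDegree_mul hPx0 hQ0, ← hQ]
    exact hEdeg
  have h1 := absLogHeight_polymul n Px Q hPx0 hQ0 hdeg
  rw [← hQ] at h1
  have h2 : cv n E = fun j : Fin (n + 1) => eval v (phi Φ j) := by
    funext j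
    rw [cv, hE, eval_phi]
  rw [h2] at h1
  have h3 := hC1 v
  have h4 : absLogHeight x ≤ absLogHeight (cv n Px) := by
    have hlt : M + 2 ≤ n + 1 := by
      have : M + 1 ≤ n := le_max_right _ _
      omega
    have h5 := absLogHeight_comp_le (Fin.castLE hlt) (cv n Px)
    have h6 : cv n Px ∘ Fin.castLE hlt = x := by
      funext i
      simp only [Function.comp_apply, cv, Fin.val_castLE, hPx, Polynomial.finsetSum_coeff,
        Polynomial.coeff_C_mul, Polynomial.coeff_X_pow]
      rw [Finset.sum_eq_single i]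
      · simp
      · intro b _ hb
        rw [if_neg, mul_zero]
        intro h
        exact hb (Fin.ext h.symm)
      · intro h
        exact absurd (Finset.mem_univ _) h
    rwa [h6] at h5
  have h7 := absLogHeight_nonneg (cv n Q)
  have h8 := absLogHeight_nonneg v
  have h9 : (r : ℝ) * absLogHeight v ≤ (d : ℝ) ^ M * absLogHeight v := by
    refine mul_le_mul_of_nonneg_right ?_ h8
    exact_mod_cast hr
  linarith

end Pool.Agent.R327.HX
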