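import Mathlib
import Pool.Agent.R327.HX.Defs
import Pool.Agent.R327.HX.Low

set_option autoImplicit false

namespace Pool.Agent.R327.HX

open MvPolynomial Filter
open Pool.Agent.Helper259.AbsHt

variable {N d : ℕ}

lemma eval_smul_homog {n m : ℕ} (G : MvPolynomial (Fin n) Qbar) (hG : G.IsHomogeneous m)
    (a : Qbar) (v : Fin n → Qbar) : eval (a • v) G = a ^ m * eval v G := by
  classical
  conv_lhs => rw [G.as_sum, map_sum]
  conv_rhs => rw [G.as_sum, map_sum, Finset.mul_sum]
  refine Finset.sum_congr rfl fun α hα => ?_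
  have h1 : α.degree = m := by
    have := hG (mem_support_iff.mp hα)
    rwa [Finsupp.degree_eq_weight_one]
  rw [eval_monomial, eval_monomial, Finsupp.prod, Finsupp.prod]
  simp only [Pi.smul_apply, smul_eq_mul, mul_pow, Finset.prod_mul_distrib,
    Finset.prod_pow_eq_pow_sum]
  have h2 : ∑ i ∈ α.support, α i = m := h1
  rw [h2]
  ring

/-- the representative of the point defined by a vector -/
lemma rep_mk (v : Fin (N + 1) → Qbar) (hv : v ≠ 0) :
    ∃ a : Qbar, a ≠ 0 ∧ (Projectivization.mk Qbar v hv).rep = a • v := by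
  obtain ⟨a, ha⟩ := Projectivization.exists_smul_eq_mk_rep Qbar v hv
  exact ⟨a, a.ne_zero, ha.symm⟩

lemma ht_mk (v : Fin (N + 1) → Qbar) (hv : v ≠ 0) :
    ht (Projectivization.mk Qbar v hv) = absLogHeight v := by
  obtain ⟨a, ha, h⟩ := rep_mk v hv
  rw [ht, h, absLogHeight_smul v ha]

lemma ht_img (F : RatMap N d) (P : PP N) (h : F.DefinedAt P) :
    ht (F.img P) = absLogHeight (F.vec P) := by
  have h' : F.vec P ≠ 0 := h
  rw [RatMap.img, dif_pos h', ht_mk]

lemma eval_img (F : RatMap N d) (P : PP N) (h : F.DefinedAt P) {m : ℕ}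
    (G : MvPolynomial (Fin (N + 1)) Qbar) (hG : G.IsHomogeneous m) :
    eval (F.img P).rep G ≠ 0 ↔ eval (F.vec P) G ≠ 0 := by
  have h' : F.vec P ≠ 0 := h
  rw [RatMap.img, dif_pos h']
  obtain ⟨a, ha, h1⟩ := rep_mk (F.vec P) h'
  rw [h1, eval_smul_homog G hG]
  simp [ha]

lemma open_of_ne {m : ℕ} (G : MvPolynomial (Fin (N + 1)) Qbar) (hG : G.IsHomogeneous m) :
    ZariskiOpen {P : PP N | eval P.rep G ≠ 0} := by
  refine ⟨{G}, fun H hH => ⟨m, ?_⟩, ?_⟩
  · rw [Set.mem_singleton_iff.mp hH]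
    exact hG
  · ext P
    simp

/-- a nonzero form does not vanish somewhere -/
lemma exists_point {m : ℕ} (G : MvPolynomial (Fin (N + 1)) Qbar) (hG : G.IsHomogeneous m)
    (hG0 : G ≠ 0) : ∃ P : PP N, eval P.rep G ≠ 0 := by
  obtain ⟨v, hv⟩ : ∃ v, eval v (G * X 0) ≠ 0 := by
    by_contra h
    push Not at h
    exact mul_ne_zero hG0 (X_ne_zero (0 : Fin (N + 1)))
      (MvPolynomial.funext fun c => by rw [h c, map_zero])
  rw [map_mul, eval_X] at hv
  have hv0 : v ≠ 0 := by
    rintro rfl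
    simp at hv
  refine ⟨Projectivization.mk Qbar v hv0, ?_⟩
  obtain ⟨a, ha, h⟩ := rep_mk v hv0
  rw [h, eval_smul_homog G hG]
  exact mul_ne_zero (pow_ne_zero _ ha) (left_ne_zero_of_mul hv)

/-- the coordinates of a dominant map are algebraically independent -/
theorem indep_of_dominant (hd : 1 ≤ d) (F : RatMap N d) (hF : F.Dominant) :
    AlgebraicIndependent Qbar F.f := by
  classical
  rw [algebraicIndependent_iff]
  intro p hp
  by_contra hp0
  obtain ⟨m, hm⟩ : ∃ m, homogeneousComponent m p ≠ 0 := by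
    by_contra h
    push Not at h
    apply hp0
    rw [← sum_homogeneousComponent p]
    exact Finset.sum_eq_zero fun i _ => h i
  set G := homogeneousComponent m p with hG
  have hGh : G.IsHomogeneous m := homogeneousComponent_isHomogeneous m p
  have hGf : aeval F.f G = 0 := by
    rw [hG, aeval_homogeneousComponent F.f hd F.hom, hp, map_zero]
  obtain ⟨P, hP, hPU⟩ := hF _ (open_of_ne G hGh) (exists_point G hGh hm)
  have h1 := (eval_img F P hP G hGh).mp hPU
  apply h1
  have h2 := comp_aeval_apply (f := F.f)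
    (aeval P.rep : MvPolynomial (Fin (N + 1)) Qbar →ₐ[Qbar] Qbar) G
  rw [hGf, map_zero] at h2
  simp only [MvPolynomial.aeval_eq_eval] at h2
  exact h2.symm

/-- the lower bound for the height expansion ratio -/
theorem le_mu {M : ℕ} (hd : 1 ≤ d) (F : RatMap (M + 1) d) (hF : F.Dominant) :
    (((1 / (d : ℝ) ^ M : ℝ)) : EReal) ≤ F.mu := by
  obtain ⟨m, G, hGh, hG0, C, hC⟩ := height_lower hd F.f F.hom (indep_of_dominant hd F hF)
  have hU : ZariskiOpen {P : PP (M + 1) | eval P.rep G ≠ 0} := open_of_ne G hGh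
  have hUn : ({P : PP (M + 1) | eval P.rep G ≠ 0}).Nonempty := exists_point G hGh hG0
  refine le_trans ?_ (le_iSup (fun U : {U : Set (PP (M + 1)) // ZariskiOpen U ∧ U.Nonempty} =>
    F.low U.1) ⟨_, hU, hUn⟩)
  have hdpos : (0 : ℝ) < (d : ℝ) ^ M := by
    have : (0 : ℝ) < d := by exact_mod_cast hd
    positivity
  rw [← EReal.ge_of_forall_gt_iff_ge]
  intro a ha
  have ha' : a < 1 / (d : ℝ) ^ M := by exact_mod_cast ha
  refine le_liminf_of_le (by isBoundedDefault) ?_
  -- `h P` large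
  set B : ℝ := C / (1 - a * (d : ℝ) ^ M) with hB
  have hpos : 0 < 1 - a * (d : ℝ) ^ M := by
    rw [lt_div_iff₀ hdpos] at ha'
    linarith
  have h1 : ∀ᶠ P : PP (M + 1) in comap (fun P : PP (M + 1) => ht P) atTop, max B 1 ≤ ht P :=
    tendsto_comap.eventually (eventually_ge_atTop (max B 1))
  have h2 : ∀ᶠ P : PP (M + 1) in comap (fun P : PP (M + 1) => ht P) atTop ⊓
      𝓟 {P | P ∈ {P : PP (M + 1) | eval P.rep G ≠ 0} ∧ F.DefinedAt P},
      max B 1 ≤ ht P ∧ (eval P.rep G ≠ 0 ∧ F.DefinedAt P) := by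
    refine (h1.filter_mono inf_le_left).and ?_
    exact (eventually_principal.mpr fun P hP => hP).filter_mono inf_le_right
  refine h2.mono fun P hP => ?_
  obtain ⟨hP1, hP2, hP3⟩ := hP
  have h3 := hC P.rep hP2 P.rep_nonzero
  have h4 : ht (F.img P) = absLogHeight (fun i => eval P.rep (F.f i)) := ht_img F P hP3
  rw [← h4] at h3
  have hht : (1 : ℝ) ≤ ht P := (le_max_right _ _).trans hP1
  have hht2 : B ≤ ht P := (le_max_left _ _).trans hP1
  have h5 : a ≤ ht (F.img P) / ht P := by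
    rw [le_div_iff₀ (by linarith)]
    have h6 : C ≤ (1 - a * (d : ℝ) ^ M) * ht P := by
      rw [hB, div_le_iff₀ hpos] at hht2
      linarith
    have h7 : absLogHeight P.rep = ht P := rfl
    rw [h7] at h3
    have h8 : (d : ℝ) ^ M * (a * ht P) ≤ (d : ℝ) ^ M * ht (F.img P) := by nlinarith
    exact le_of_mul_le_mul_left h8 hdpos
  exact_mod_cast h5

end Pool.Agent.R327.HX
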