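import Mathlib
import Pool.Agent.R327.HX.LowMu

set_option autoImplicit false

/-!
# A triangular map with small height expansion ratio
-/

namespace Pool.Agent.R327.HX

open MvPolynomial Filter
open Pool.Agent.Helper259.AbsHt

/-- the triangular map -/
noncomputable def exf (M d : ℕ) : Fin (M + 1 + 1) → MvPolynomial (Fin (M + 1 + 1)) Qbar :=
  Fin.cons (X 0 ^ d) (fun j : Fin (M + 1) => X 0 ^ (d - 1) * X j.succ +
    if j = 0 then 0 else X j.castSucc ^ d)

lemma exf_hom (M d : ℕ) (hd : 1 ≤ d) (i : Fin (M + 1 + 1)) : (exf M d i).IsHomogeneous d := by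
  refine Fin.cases ?_ (fun l => ?_) i
  · simp only [exf, Fin.cons_zero]
    have := (isHomogeneous_X Qbar (0 : Fin (M + 1 + 1))).pow d
    rwa [one_mul] at this
  · simp only [exf, Fin.cons_succ]
    refine IsHomogeneous.add ?_ ?_
    · have h1 := (isHomogeneous_X Qbar (0 : Fin (M + 1 + 1))).pow (d - 1)
      have h2 := h1.mul (isHomogeneous_X Qbar l.succ)
      have h3 : 1 * (d - 1) + 1 = d := by omega
      rwa [h3] at h2
    · split_ifs
      · exact isHomogeneous_zero _ _ _
      · have := (isHomogeneous_X Qbar l.castSucc).pow d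
        rwa [one_mul] at this

lemma exf_coprime (M d : ℕ) (hM : 1 ≤ M) (hd : 2 ≤ d)
    (q : MvPolynomial (Fin (M + 1 + 1)) Qbar) (hq : ∀ i, q ∣ exf M d i) : IsUnit q := by
  have h0 := hq 0
  simp only [exf, Fin.cons_zero] at h0
  have hp : Prime (X 0 : MvPolynomial (Fin (M + 1 + 1)) Qbar) := MvPolynomial.X_prime
  obtain ⟨i, hi, hass⟩ := (dvd_prime_pow hp d).mp h0
  rcases Nat.eq_zero_or_pos i with rfl | hipos
  · rw [pow_zero] at hass
    exact associated_one_iff_isUnit.mp hass
  · exfalso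
    have h1 : (X 0 : MvPolynomial (Fin (M + 1 + 1)) Qbar) ∣ q :=
      (dvd_pow_self _ (by omega)).trans hass.symm.dvd
    have hlt : 1 < M + 1 := by omega
    have h2 : (X 0 : MvPolynomial (Fin (M + 1 + 1)) Qbar) ∣
        exf M d (Fin.succ ⟨1, hlt⟩) := h1.trans (hq _)
    obtain ⟨s, hs⟩ := h2
    have h3 := congrArg (eval (fun i : Fin (M + 1 + 1) => if (i : ℕ) = 1 then (1 : Qbar) else 0)) hs
    simp only [exf, Fin.cons_succ] at h3
    have hne : (⟨1, hlt⟩ : Fin (M + 1)) ≠ 0 := by
      intro h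
      have := congrArg Fin.val h
      simp at this
    rw [if_neg hne] at h3
    simp only [map_add, map_mul, map_pow, eval_X, Fin.val_zero, zero_ne_one, if_false,
      Fin.val_castSucc, if_true, one_pow, zero_mul] at h3
    rw [zero_pow (by omega), zero_mul, zero_add] at h3
    exact one_ne_zero h3

/-- the triangular map as a rational map -/
noncomputable def exF (M d : ℕ) (hM : 1 ≤ M) (hd : 2 ≤ d) : RatMap (M + 1) d where
  f := exf M d
  hom := exf_hom M d (by omega)
  coprime := exf_coprime M d hM hd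

/-- the coordinates of the special points, as polynomials in a parameter -/
noncomputable def pol (d : ℕ) (c : ℕ → ℤ) : ℕ → Polynomial ℤ
  | 0 => 1
  | 1 => Polynomial.X
  | (j + 2) => Polynomial.C (c (j + 2)) - pol d c (j + 1) ^ d

/-- the special points -/
noncomputable def pt (M d : ℕ) (c : ℕ → ℤ) (t : ℤ) : Fin (M + 1 + 1) → Qbar :=
  fun i => (((pol d c i).eval t : ℤ) : Qbar)

/-- the images of the special points -/
noncomputable def wt (c : ℕ → ℤ) (t : ℤ) : ℕ → ℤ
  | 0 => 1
  | 1 => t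
  | (j + 2) => c (j + 2)

lemma pt_zero (M d : ℕ) (c : ℕ → ℤ) (t : ℤ) : pt M d c t 0 = 1 := by
  simp [pt, pol]

lemma pt_ne (M d : ℕ) (c : ℕ → ℤ) (t : ℤ) : pt M d c t ≠ 0 := by
  intro h
  have := congrFun h 0
  rw [pt_zero] at this
  exact one_ne_zero this

lemma exf_pt (M d : ℕ) (c : ℕ → ℤ) (t : ℤ) (i : Fin (M + 1 + 1)) :
    eval (pt M d c t) (exf M d i) = ((wt c t i : ℤ) : Qbar) := by
  refine Fin.cases ?_ (fun l => ?_) i
  · simp only [exf, Fin.cons_zero, map_pow, eval_X, pt_zero, one_pow]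
    simp [wt]
  · simp only [exf, Fin.cons_succ, map_add, map_mul, map_pow, eval_X, pt_zero, one_pow, one_mul]
    refine Fin.cases ?_ (fun l' => ?_) l
    · simp [pt, pol, wt]
    · rw [if_neg (Fin.succ_ne_zero l')]
      simp [pt, pol, wt]

lemma exists_int {M m : ℕ} (G : MvPolynomial (Fin (M + 1 + 1)) Qbar) (hG : G.IsHomogeneous m)
    (hG0 : G ≠ 0) : ∃ z : Fin (M + 1) → ℤ,
      eval (Fin.cons (1 : Qbar) (fun i => (z i : Qbar)) : Fin (M + 1 + 1) → Qbar) G ≠ 0 := by
  by_contra hcon
  push Not at hcon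
  set G1 : MvPolynomial (Fin (M + 1)) Qbar :=
    aeval (Fin.cons 1 X : Fin (M + 1 + 1) → MvPolynomial (Fin (M + 1)) Qbar) G with hG1
  have hev : ∀ y : Fin (M + 1) → Qbar, eval y G1 =
      eval (Fin.cons (1 : Qbar) y : Fin (M + 1 + 1) → Qbar) G := by
    intro y
    have h1 := comp_aeval_apply (f := (Fin.cons 1 X : Fin (M + 1 + 1) →
      MvPolynomial (Fin (M + 1)) Qbar))
      (aeval y : MvPolynomial (Fin (M + 1)) Qbar →ₐ[Qbar] Qbar) G
    simp only [MvPolynomial.aeval_eq_eval] at h1
    rw [hG1]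
    refine h1.trans ?_
    congr 2
    funext i
    refine Fin.cases ?_ (fun l => ?_) i
    · simp
    · simp
  have hG10 : G1 = 0 := by
    refine MvPolynomial.funext_set (fun _ => Set.range ((↑) : ℤ → Qbar))
      (fun _ => Set.infinite_range_of_injective Int.cast_injective) ?_
    intro y hy
    rw [map_zero, hev]
    choose z hz using fun i => hy i (Set.mem_univ i)
    have : y = fun i => (z i : Qbar) := funext fun i => (hz i).symm
    rw [this]
    exact hcon z
  have h0 : G * X 0 = 0 := by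
    refine MvPolynomial.funext fun v => ?_
    rw [map_mul, eval_X, map_zero]
    by_cases hv : v 0 = 0
    · rw [hv, mul_zero]
    · have h1 : v = v 0 • (Fin.cons 1 (fun i : Fin (M + 1) => v i.succ / v 0) :
          Fin (M + 1 + 1) → Qbar) := by
        funext i
        refine Fin.cases ?_ (fun l => ?_) i
        · simp
        · simp [mul_div_cancel₀ _ hv]
      have h2 : eval v G = 0 := by
        rw [h1, eval_smul_homog G hG, ← hev, hG10, map_zero, mul_zero]
      rw [h2, zero_mul]
  exact mul_ne_zero hG0 (X_ne_zero _) h0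

theorem exF_dominant (M d : ℕ) (hM : 1 ≤ M) (hd : 2 ≤ d) : (exF M d hM hd).Dominant := by
  rintro U ⟨S, hS, rfl⟩ ⟨P0, G, hGS, hG⟩
  obtain ⟨m, hGm⟩ := hS G hGS
  have hG0 : G ≠ 0 := by
    rintro rfl
    simp at hG
  obtain ⟨z, hz⟩ := exists_int G hGm hG0
  set c : ℕ → ℤ := fun n => if h : n - 1 < M + 1 then z ⟨n - 1, h⟩ else 0 with hc
  have hw : (fun i : Fin (M + 1 + 1) => ((wt c (z 0) i : ℤ) : Qbar)) =
      (Fin.cons (1 : Qbar) (fun i => (z i : Qbar)) : Fin (M + 1 + 1) → Qbar) := by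
    funext i
    refine Fin.cases ?_ (fun l => ?_) i
    · simp [wt]
    · refine Fin.cases ?_ (fun l' => ?_) l
      · simp [wt]
      · have h1 : c (l' + 2) = z l'.succ := by
          have h2 : (l' : ℕ) + 2 - 1 < M + 1 := by
            have := l'.2
            omega
          simp only [hc]
          rw [dif_pos h2]
          congr 1
        simp only [Fin.cons_succ, Fin.val_succ, wt]
        rw [← h1]
  refine ⟨Projectivization.mk Qbar (pt M d c (z 0)) (pt_ne _ _ _ _), ?_⟩
  set P := Projectivization.mk Qbar (pt M d c (z 0)) (pt_ne M d c (z 0)) with hP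
  obtain ⟨a, ha, hrep⟩ := rep_mk (pt M d c (z 0)) (pt_ne M d c (z 0))
  have hvec : (exF M d hM hd).vec P = a ^ d • (fun i : Fin (M + 1 + 1) =>
      ((wt c (z 0) i : ℤ) : Qbar)) := by
    funext i
    rw [RatMap.vec, hrep]
    change eval (a • pt M d c (z 0)) (exf M d i) = _
    rw [eval_smul_homog _ (exf_hom M d (by omega) i), exf_pt]
    simp
  have hne : eval ((exF M d hM hd).vec P) G ≠ 0 := by
    rw [hvec, eval_smul_homog G hGm, hw]
    exact mul_ne_zero (pow_ne_zero _ (pow_ne_zero _ ha)) hz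
  have hdef : (exF M d hM hd).DefinedAt P := by
    intro h
    have h0 := congrFun h 0
    rw [hvec] at h0
    simp [wt, ha] at h0
  exact ⟨hdef, G, hGS, (eval_img _ P hdef G hGm).mpr hne⟩

end Pool.Agent.R327.HX
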