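import Mathlib
import Pool.Agent.R327.HX.Ex

set_option autoImplicit false

/-!
# The height expansion ratio of the triangular map
-/

namespace Pool.Agent.R327.HX

open MvPolynomial Filter
open Pool.Agent.Helper259.AbsHt

/-- growth of the coordinates -/
lemma pol_growth (d : ℕ) (hd : 2 ≤ d) (c : ℕ → ℤ) (K : ℕ) (hK : ∀ n, |c n| ≤ K) (j : ℕ) (t : ℕ)
    (ht : K + j + 2 ≤ t) :
    ((t : ℤ) - j) ^ (d ^ j) ≤ |(pol d c (j + 1)).eval (t : ℤ)| := by
  induction j with
  | zero => simp [pol]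
  | succ j ih =>
    have ih' := ih (by omega)
    have h1 : (pol d c (j + 1 + 1)).eval (t : ℤ) =
        c (j + 2) - ((pol d c (j + 1)).eval (t : ℤ)) ^ d := by
      simp [pol]
    rw [h1]
    set A : ℤ := (pol d c (j + 1)).eval (t : ℤ) with hA
    have h2 : |A| ^ d - |c (j + 2)| ≤ |c (j + 2) - A ^ d| := by
      rw [← abs_pow, abs_sub_comm]
      exact abs_sub_abs_le_abs_sub _ _
    refine le_trans ?_ h2
    set b : ℤ := (t : ℤ) - j with hb
    have hb2 : (K : ℤ) + 2 ≤ b := by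
      rw [hb]
      omega
    have h3 : (b ^ (d ^ j)) ^ d ≤ |A| ^ d := pow_le_pow_left₀ (pow_nonneg (by linarith) _) ih' d
    rw [← pow_mul, ← pow_succ] at h3
    have h4 : (t : ℤ) - ((j + 1 : ℕ) : ℤ) = b - 1 := by
      rw [hb]; push_cast; ring
    rw [h4]
    set m : ℕ := d ^ (j + 1) with hm
    have hm2 : 2 ≤ m := by
      rw [hm]
      calc 2 ≤ d := hd
        _ = d ^ 1 := (pow_one d).symm
        _ ≤ d ^ (j + 1) := Nat.pow_le_pow_right (by omega) (by omega)
    have h5 : (b - 1) ^ m ≤ b ^ m - b := by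
      obtain ⟨m', hm'⟩ : ∃ m', m = m' + 2 := ⟨m - 2, by omega⟩
      rw [hm']
      have h6 : (b - 1) ^ (m' + 1) ≤ b ^ (m' + 1) :=
        pow_le_pow_left₀ (by linarith) (by linarith) _
      have h7 : b ≤ b ^ (m' + 1) := by
        calc b = b ^ 1 := (pow_one b).symm
          _ ≤ b ^ (m' + 1) := pow_le_pow_right₀ (by linarith) (by omega)
      calc (b - 1) ^ (m' + 2) = (b - 1) ^ (m' + 1) * (b - 1) := pow_succ _ _
        _ ≤ b ^ (m' + 1) * (b - 1) := mul_le_mul_of_nonneg_right h6 (by linarith)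
        _ = b ^ (m' + 2) - b ^ (m' + 1) := by ring
        _ ≤ b ^ (m' + 2) - b := by linarith
    have h8 := hK (j + 2)
    linarith

lemma gcd_eq_one {n : ℕ} (x : Fin (n + 1) → ℤ) (hx : x 0 = 1) : Finset.univ.gcd x = 1 := by
  have h1 : Finset.univ.gcd x ∣ 1 := by
    have := Finset.gcd_dvd (f := x) (Finset.mem_univ (0 : Fin (n + 1)))
    rwa [hx] at this
  have h2 : 0 ≤ Finset.univ.gcd x := by
    exact Int.nonneg_of_normalize_eq_self Finset.normalize_gcd
  exact Int.eq_one_of_dvd_one h2 h1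


lemma ht_pt (M d : ℕ) (hd : 2 ≤ d) (c : ℕ → ℤ) (K : ℕ) (hK : ∀ n, |c n| ≤ K) (t : ℕ)
    (ht' : K + M + 2 ≤ t) :
    (d : ℝ) ^ M * Real.log ((t : ℝ) - M) ≤ absLogHeight (pt M d c t) := by
  have h1 : pt M d c t = fun i => (((fun i : Fin (M + 1 + 1) => (pol d c i).eval (t : ℤ)) i : ℤ) :
      Qbar) := rfl
  rw [h1, absLogHeight_int _ (gcd_eq_one _ (by simp [pol]))]
  have h2 := pol_growth d hd c K hK M t ht'
  have h3 : |(pol d c (M + 1)).eval (t : ℤ)| ≤
      ⨆ i : Fin (M + 1 + 1), |(pol d c i).eval (t : ℤ)| := by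
    have := Finite.le_ciSup (fun i : Fin (M + 1 + 1) => |(pol d c i).eval (t : ℤ)|)
      (Fin.last (M + 1))
    simpa using this
  have h4 : ((t : ℤ) - M) ^ (d ^ M) ≤ ⨆ i : Fin (M + 1 + 1), |(pol d c i).eval (t : ℤ)| :=
    h2.trans h3
  have h5 : (((t : ℝ) - M) ^ (d ^ M) : ℝ) ≤
      ((⨆ i : Fin (M + 1 + 1), |(pol d c i).eval (t : ℤ)| : ℤ) : ℝ) := by exact_mod_cast h4
  have hpos : (0 : ℝ) < (t : ℝ) - M := by
    have : ((K + M + 2 : ℕ) : ℝ) ≤ t := by exact_mod_cast ht'
    push_cast at this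
    have hK0 : (0 : ℝ) ≤ K := by positivity
    linarith
  have h6 := Real.log_le_log (pow_pos hpos _) h5
  rw [Real.log_pow] at h6
  push_cast at h6
  exact h6

lemma ht_wt (M : ℕ) (c : ℕ → ℤ) (K : ℕ) (hK : ∀ n, |c n| ≤ K) (t : ℕ) (ht' : K + 1 ≤ t) :
    absLogHeight (fun i : Fin (M + 1 + 1) => ((wt c t i : ℤ) : Qbar)) ≤ Real.log t := by
  have h1 : (fun i : Fin (M + 1 + 1) => ((wt c t i : ℤ) : Qbar)) =
      fun i => (((fun i : Fin (M + 1 + 1) => wt c t i) i : ℤ) : Qbar) := rfl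
  rw [h1, absLogHeight_int _ (gcd_eq_one _ (by simp [wt]))]
  have h2 : ∀ i : Fin (M + 1 + 1), |wt c t i| ≤ (t : ℤ) := by
    intro i
    refine Fin.cases ?_ (fun l => ?_) i
    · simp [wt]; omega
    · refine Fin.cases ?_ (fun l' => ?_) l
      · simp [wt]
      · have := hK (l' + 2)
        simp only [Fin.val_succ, wt]
        have h3 : ((K + 1 : ℕ) : ℤ) ≤ t := by exact_mod_cast ht'
        push_cast at h3
        linarith
  have h3 : (⨆ i : Fin (M + 1 + 1), |wt c t i|) ≤ (t : ℤ) := ciSup_le h2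
  have h4 : (1 : ℤ) ≤ ⨆ i : Fin (M + 1 + 1), |wt c t i| := by
    have := Finite.le_ciSup (fun i : Fin (M + 1 + 1) => |wt c t i|) 0
    simpa [wt] using this
  refine Real.log_le_log ?_ ?_
  · exact_mod_cast (by linarith : (0 : ℤ) < ⨆ i : Fin (M + 1 + 1), |wt c t i|)
  · exact_mod_cast h3

/-- the upper bound for the triangular map -/
theorem mu_le (M d : ℕ) (hM : 1 ≤ M) (hd : 2 ≤ d) :
    (exF M d hM hd).mu ≤ ((1 / (d : ℝ) ^ M : ℝ) : EReal) := by
  have hdpos : (0 : ℝ) < (d : ℝ) ^ M := by positivity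
  refine iSup_le ?_
  rintro ⟨U, ⟨S, hS, rfl⟩, ⟨P0, G, hGS, hG⟩⟩
  obtain ⟨m, hGm⟩ := hS G hGS
  have hG0 : G ≠ 0 := by
    rintro rfl
    simp at hG
  obtain ⟨z, hz⟩ := exists_int G hGm hG0
  -- the parameters
  set z' : ℕ → ℤ := fun n => if h : n - 1 < M + 1 then z ⟨n - 1, h⟩ else 0 with hz'
  set c : ℕ → ℤ := fun n => if n ≤ M + 1 then z' n + (z' (n - 1)) ^ d else 0 with hc
  have hpol : ∀ j, j ≤ M → (pol d c (j + 1)).eval (z 0) = z' (j + 1) := by
    intro j hj
    cases j with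
    | zero => simp [pol, hz']
    | succ j =>
      induction j with
      | zero =>
        have h1 : (2 : ℕ) ≤ M + 1 := by omega
        simp [pol, hc, hz', h1]
      | succ j ih =>
        have ih' := ih (by omega)
        have h1 : (pol d c (j + 1 + 1 + 1)).eval (z 0) =
            c (j + 3) - ((pol d c (j + 1 + 1)).eval (z 0)) ^ d := by
          simp [pol]
        rw [h1, ih']
        have h2 : j + 3 ≤ M + 1 := by omega
        simp only [hc]
        rw [if_pos h2]
        have h3 : j + 3 - 1 = j + 1 + 1 := by omega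
        rw [h3]
        ring_nf
  have hptz : pt M d c (z 0) =
      (Fin.cons (1 : Qbar) (fun i => (z i : Qbar)) : Fin (M + 1 + 1) → Qbar) := by
    funext i
    refine Fin.cases ?_ (fun l => ?_) i
    · simp [pt_zero]
    · have h1 := hpol l (by have := l.2; omega)
      simp only [pt, Fin.val_succ, Fin.cons_succ, h1]
      congr 1
      simp only [hz']
      have h2 : (l : ℕ) + 1 - 1 < M + 1 := by have := l.2; omega
      rw [dif_pos h2]
      congr 1
  -- the polynomial in the parameter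
  set q : Polynomial Qbar := aeval (fun i : Fin (M + 1 + 1) =>
    (pol d c i).map (Int.castRingHom Qbar)) G with hq
  have hqe : ∀ t : ℤ, q.eval (t : Qbar) = eval (pt M d c t) G := by
    intro t
    have h1 := comp_aeval_apply (f := (fun i : Fin (M + 1 + 1) =>
      (pol d c i).map (Int.castRingHom Qbar)))
      (Polynomial.aeval (t : Qbar) : Polynomial Qbar →ₐ[Qbar] Qbar) G
    rw [← hq, MvPolynomial.aeval_eq_eval, Polynomial.coe_aeval_eq_eval] at h1
    rw [h1]
    congr 2
    funext i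
    rw [pt]
    have h2 := Polynomial.eval_intCast_map (Int.castRingHom Qbar) (pol d c i) t
    simpa using h2
  have hq0 : q ≠ 0 := by
    intro h
    have h1 := hqe (z 0)
    rw [h, Polynomial.eval_zero, hptz] at h1
    exact hz h1.symm
  have hev : ∀ᶠ t : ℕ in atTop, eval (pt M d c (t : ℤ)) G ≠ 0 := by
    have h1 : {t : ℕ | q.eval ((t : ℤ) : Qbar) = 0}.Finite := by
      have h2 : (q.rootSet Qbar).Finite := Polynomial.rootSet_finite q Qbar
      refine Set.Finite.of_finite_image (f := fun t : ℕ => ((t : ℤ) : Qbar)) (h2.subset ?_) ?_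
      · rintro _ ⟨t, ht, rfl⟩
        rw [Polynomial.mem_rootSet]
        exact ⟨hq0, by simpa [Polynomial.aeval_def] using ht⟩
      · intro a _ b _ hab
        have : ((a : ℤ) : Qbar) = ((b : ℤ) : Qbar) := hab
        have h3 := Int.cast_injective this
        exact_mod_cast h3
    have h3 := h1.eventually_cofinite_notMem
    rw [Nat.cofinite_eq_atTop] at h3
    refine h3.mono fun t ht h => ht ?_
    rw [Set.mem_ofPred_eq, hqe]
    exact h
  obtain ⟨K, hK⟩ : ∃ K : ℕ, ∀ n, |c n| ≤ K := by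
    refine ⟨∑ n ∈ Finset.range (M + 2), (c n).natAbs, fun n => ?_⟩
    by_cases hn : n ≤ M + 1
    · have h1 : (c n).natAbs ≤ ∑ n ∈ Finset.range (M + 2), (c n).natAbs :=
        Finset.single_le_sum (f := fun n => (c n).natAbs) (fun _ _ => Nat.zero_le _)
          (Finset.mem_range.mpr (by omega))
      calc |c n| = ((c n).natAbs : ℤ) := (Int.natCast_natAbs _).symm
        _ ≤ _ := by exact_mod_cast h1
    · simp only [hc]
      rw [if_neg hn, abs_zero]
      positivity
  -- the sequence of points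
  set u : ℕ → PP (M + 1) := fun t => Projectivization.mk Qbar (pt M d c (t : ℤ))
    (pt_ne M d c (t : ℤ)) with hu
  have hrep : ∀ t : ℕ, ∃ a : Qbar, a ≠ 0 ∧ (u t).rep = a • pt M d c (t : ℤ) := fun t =>
    rep_mk _ _
  have hvec : ∀ t : ℕ, ∃ a : Qbar, a ≠ 0 ∧ (exF M d hM hd).vec (u t) =
      a • (fun i : Fin (M + 1 + 1) => ((wt c t i : ℤ) : Qbar)) := by
    intro t
    obtain ⟨a, ha, har⟩ := hrep t
    refine ⟨a ^ d, pow_ne_zero _ ha, ?_⟩
    funext i
    rw [RatMap.vec, har]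
    change eval (a • pt M d c t) (exf M d i) = _
    rw [eval_smul_homog _ (exf_hom M d (by omega) i), exf_pt]
    simp
  have hdef : ∀ t : ℕ, (exF M d hM hd).DefinedAt (u t) := by
    intro t h
    obtain ⟨a, ha, hav⟩ := hvec t
    have h0 := congrFun h 0
    rw [hav] at h0
    simp [wt, ha] at h0
  have hht : ∀ t : ℕ, ht (u t) = absLogHeight (pt M d c (t : ℤ)) := fun t => ht_mk _ _
  have himg : ∀ t : ℕ, ht ((exF M d hM hd).img (u t)) =
      absLogHeight (fun i : Fin (M + 1 + 1) => ((wt c t i : ℤ) : Qbar)) := by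
    intro t
    obtain ⟨a, ha, hav⟩ := hvec t
    rw [ht_img _ _ (hdef t), hav, absLogHeight_smul _ ha]
  have hloginf : Tendsto (fun t : ℕ => Real.log ((t : ℝ) - M)) atTop atTop :=
    Real.tendsto_log_atTop.comp (tendsto_atTop_add_const_right _ _ tendsto_natCast_atTop_atTop)
  have hut : Tendsto u atTop (comap (fun P : PP (M + 1) => ht P) atTop ⊓
      𝓟 {P | P ∈ {P : PP (M + 1) | ∃ G ∈ S, eval P.rep G ≠ 0} ∧
        (exF M d hM hd).DefinedAt P}) := by
    rw [tendsto_inf, tendsto_comap_iff, tendsto_principal]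
    constructor
    · have h1 : Tendsto (fun t : ℕ => (d : ℝ) ^ M * Real.log ((t : ℝ) - M)) atTop atTop :=
        hloginf.const_mul_atTop hdpos
      refine tendsto_atTop_mono' atTop ?_ h1
      filter_upwards [eventually_ge_atTop (K + M + 2)] with t ht'
      rw [Function.comp_apply, hht]
      exact ht_pt M d hd c K hK t ht'
    · filter_upwards [hev] with t ht'
      refine ⟨⟨G, hGS, ?_⟩, hdef t⟩
      obtain ⟨a, ha, har⟩ := hrep t
      rw [har, eval_smul_homog G hGm]
      exact mul_ne_zero (pow_ne_zero _ ha) ht'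
  rw [← EReal.le_of_forall_lt_iff_le]
  intro a ha
  have ha' : 1 / (d : ℝ) ^ M < a := by exact_mod_cast ha
  refine liminf_le_of_frequently_le ?_ (by isBoundedDefault)
  refine hut.frequently (Eventually.frequently ?_)
  -- the ratio
  set b : ℝ := a * (d : ℝ) ^ M with hb
  have hb1 : 0 < b - 1 := by
    rw [div_lt_iff₀ hdpos] at ha'
    linarith
  have h1 : ∀ᶠ t : ℕ in atTop, Real.log 2 / (b - 1) ≤ Real.log ((t : ℝ) - M) :=
    hloginf.eventually (eventually_ge_atTop _)
  filter_upwards [h1, eventually_ge_atTop (K + 2 * M + 2)] with t ht1 ht2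
  have hpos : (1 : ℝ) < (t : ℝ) - M := by
    have : ((K + 2 * M + 2 : ℕ) : ℝ) ≤ t := by exact_mod_cast ht2
    push_cast at this
    have hK0 : (0 : ℝ) ≤ K := by positivity
    have hM0 : (0 : ℝ) ≤ M := by positivity
    linarith
  have hlpos : 0 < Real.log ((t : ℝ) - M) := Real.log_pos hpos
  have h2 := ht_pt M d hd c K hK t (by omega)
  have h3 := ht_wt M c K hK t (by omega)
  rw [← hht] at h2
  rw [← himg] at h3
  have h4 : Real.log t ≤ Real.log 2 + Real.log ((t : ℝ) - M) := by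
    rw [← Real.log_mul (by norm_num) (by linarith)]
    refine Real.log_le_log ?_ ?_
    · have hM0 : (0 : ℝ) ≤ M := by positivity
      linarith
    · have : ((K + 2 * M + 2 : ℕ) : ℝ) ≤ t := by exact_mod_cast ht2
      push_cast at this
      have hK0 : (0 : ℝ) ≤ K := by positivity
      linarith
  have h5 : Real.log 2 ≤ (b - 1) * Real.log ((t : ℝ) - M) := by
    rw [div_le_iff₀ hb1] at ht1
    linarith
  have h6 : 0 < ht (u t) := lt_of_lt_of_le (mul_pos hdpos hlpos) h2
  have h7 : ht ((exF M d hM hd).img (u t)) / ht (u t) ≤ a := by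
    rw [div_le_iff₀ h6]
    have ha0 : 0 < a := lt_trans (by positivity) ha'
    have h8 : a * ((d : ℝ) ^ M * Real.log ((t : ℝ) - M)) ≤ a * ht (u t) :=
      mul_le_mul_of_nonneg_left h2 ha0.le
    have h9 : a * ((d : ℝ) ^ M * Real.log ((t : ℝ) - M)) = b * Real.log ((t : ℝ) - M) := by
      rw [hb]; ring
    linarith
  exact_mod_cast h7

/-- the exact value of the infimum of the height expansion ratios -/
theorem muBar_eq (N d : ℕ) (hN : 2 ≤ N) (hd : 2 ≤ d) :
    muBar N d = ((1 / (d : ℝ) ^ (N - 1) : ℝ) : EReal) := by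
  obtain ⟨M, rfl⟩ : ∃ M, N = M + 1 := ⟨N - 1, by omega⟩
  have h1 : M + 1 - 1 = M := by omega
  rw [h1]
  refine le_antisymm ?_ ?_
  · exact (iInf_le (fun F : {F : RatMap (M + 1) d // F.Dominant} => F.1.mu)
      ⟨exF M d (by omega) hd, exF_dominant M d (by omega) hd⟩).trans
      (mu_le M d (by omega) hd)
  · exact le_iInf fun F => le_mu (by omega) F.1 F.2

end Pool.Agent.R327.HX
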